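import Mathlib
import Pool.Agent.Helper683.Lk.Set

/-!
# Concatenation of finitely many paths at uniform speed
-/

namespace Run7.h678.DG

open Pool.Agent.Helper683.Lk Topology Filter Set Function

/-- The piecewise curve running through `p 0, ..., p (k - 1)`, one unit of time each. -/
noncomputable def cfun (a : ℕ → R3) (p : ∀ i, Path (a i) (a (i + 1))) (k : ℕ) (t : ℝ) : R3 :=
  a 0 + ∑ i ∈ Finset.range k, ((p i).extend (t - i) - a i)

theorem cfun_at (a : ℕ → R3) (p : ∀ i, Path (a i) (a (i + 1))) {k j : ℕ} (hj : j < k) {u : ℝ}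
    (h0 : 0 ≤ u) (h1 : u ≤ 1) : cfun a p k (j + u) = (p j).extend u := by
  unfold cfun
  obtain ⟨d, rfl⟩ : ∃ d, k = (j + 1) + d := ⟨k - (j + 1), by omega⟩
  rw [Finset.sum_range_add, Finset.sum_range_succ]
  have e1 : ∑ i ∈ Finset.range j, ((p i).extend ((j : ℝ) + u - i) - a i) =
      ∑ i ∈ Finset.range j, (a (i + 1) - a i) := by
    apply Finset.sum_congr rfl
    intro i hi
    rw [Finset.mem_range] at hi
    have hi' : (i : ℝ) + 1 ≤ j := by exact_mod_cast hi
    rw [Path.extend_of_one_le _ (by linarith)]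
  have e2 : ∑ x ∈ Finset.range d, ((p (j + 1 + x)).extend ((j : ℝ) + u - ((j + 1 + x : ℕ) : ℝ)) -
      a (j + 1 + x)) = 0 := by
    apply Finset.sum_eq_zero
    intro i _
    rw [Path.extend_of_le_zero _ (by push_cast; have : (0:ℝ) ≤ i := i.cast_nonneg; linarith), sub_self]
  rw [e1, e2, Finset.sum_range_sub, add_sub_cancel_left, add_zero]
  abel

theorem cfun_continuous (a : ℕ → R3) (p : ∀ i, Path (a i) (a (i + 1))) (k : ℕ) :
    Continuous (cfun a p k) := by
  unfold cfun
  refine continuous_const.add (continuous_finsetSum _ fun i _ => ?_)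
  exact ((p i).continuous_extend.comp (continuous_id.sub continuous_const)).sub continuous_const

theorem cfun_zero (a : ℕ → R3) (p : ∀ i, Path (a i) (a (i + 1))) (k : ℕ) : cfun a p k 0 = a 0 := by
  unfold cfun
  rw [Finset.sum_eq_zero, add_zero]
  intro i _
  rw [Path.extend_of_le_zero _ (by have : (0:ℝ) ≤ i := i.cast_nonneg; linarith), sub_self]

theorem cfun_last (a : ℕ → R3) (p : ∀ i, Path (a i) (a (i + 1))) (k : ℕ) : cfun a p k k = a k := by
  cases k with
  | zero => simpa using cfun_zero a p 0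
  | succ k =>
    have := cfun_at a p (Nat.lt_succ_self k) zero_le_one le_rfl
    rw [Path.extend_one] at this
    rw [← this]
    push_cast
    rfl

/-- Concatenation of `p 0, ..., p (k - 1)` at uniform speed. -/
noncomputable def cat (a : ℕ → R3) (p : ∀ i, Path (a i) (a (i + 1))) (k : ℕ) : Path (a 0) (a k) where
  toFun s := cfun a p k (k * s)
  continuous_toFun := (cfun_continuous a p k).comp (continuous_const.mul continuous_subtype_val)
  source' := by simp [cfun_zero]
  target' := by simp [cfun_last]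

theorem cat_extend (a : ℕ → R3) (p : ∀ i, Path (a i) (a (i + 1))) (k : ℕ) (s : ℝ) :
    (cat a p k).extend s = cfun a p k (k * (projIcc (0 : ℝ) 1 zero_le_one s : ℝ)) := rfl

theorem cat_at (a : ℕ → R3) (p : ∀ i, Path (a i) (a (i + 1))) {k j : ℕ} (hj : j < k) {u : ℝ}
    (h0 : 0 ≤ u) (h1 : u ≤ 1) : (cat a p k).extend ((j + u) / k) = (p j).extend u := by
  have hk : (0 : ℝ) < k := by exact_mod_cast (Nat.zero_le _).trans_lt hj
  have hj' : (j : ℝ) + 1 ≤ k := by exact_mod_cast hj
  have hj0 : (0 : ℝ) ≤ j := j.cast_nonneg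
  have hmem : ((j : ℝ) + u) / k ∈ Icc (0 : ℝ) 1 := by
    constructor
    · positivity
    · rw [div_le_one hk]; linarith
  rw [cat_extend, projIcc_of_mem _ hmem, ← cfun_at a p hj h0 h1]
  congr 1
  field_simp

/-- every point of the concatenation is on one of the paths -/
theorem cat_mem (a : ℕ → R3) (p : ∀ i, Path (a i) (a (i + 1))) {k : ℕ} (hk : 0 < k) (s : ℝ) :
    ∃ j < k, ∃ u : ℝ, (cat a p k).extend s = (p j).extend u := by
  rw [cat_extend]
  obtain ⟨h0, h1⟩ := (projIcc (0 : ℝ) 1 zero_le_one s).2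
  set r : ℝ := (projIcc (0 : ℝ) 1 zero_le_one s : ℝ)
  have hk' : (0 : ℝ) < k := by exact_mod_cast hk
  rcases h1.lt_or_eq with h1 | h1
  · have hlt : k * r < k := by nlinarith
    have hfl := Nat.floor_le (show 0 ≤ k * r by positivity)
    have hfl2 := Nat.lt_floor_add_one (k * r)
    have hj : ⌊k * r⌋₊ < k := (Nat.floor_lt (by positivity)).mpr hlt
    refine ⟨⌊k * r⌋₊, hj, k * r - ⌊k * r⌋₊, ?_⟩
    rw [← cfun_at a p hj (by linarith) (by linarith)]
    congr 1
    ring
  · refine ⟨k - 1, by omega, 1, ?_⟩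
    rw [h1, mul_one, cfun_last, Path.extend_one]
    congr 1
    omega

/-- every point of every path is on the concatenation -/
theorem cat_range (a : ℕ → R3) (p : ∀ i, Path (a i) (a (i + 1))) {k : ℕ} (hk : 0 < k) :
    range (cat a p k) = ⋃ j : Fin k, range (p j) := by
  apply Subset.antisymm
  · rintro _ ⟨s, rfl⟩
    obtain ⟨j, hj, u, hu⟩ := cat_mem a p hk s
    rw [Path.extend_apply _ s.2] at hu
    rw [mem_iUnion]
    refine ⟨⟨j, hj⟩, ?_⟩
    rw [hu, ← Path.extend_range]
    exact ⟨u, rfl⟩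
  · rw [iUnion_subset_iff]
    rintro j _ ⟨u, rfl⟩
    rw [← Path.extend_range]
    refine ⟨(j + u) / k, ?_⟩
    rw [cat_at a p j.2 u.2.1 u.2.2]
    exact Path.extend_apply _ u.2

theorem insc_cat (a : ℕ → R3) (p : ∀ i, Path (a i) (a (i + 1))) {k j M r : ℕ} (hj : j < k)
    (hM : 0 < M) (hr : r ≤ M) :
    inscribed (cat a p k) (k * M) (j * M + r) = inscribed (p j) M r := by
  unfold inscribed
  have hM' : (0 : ℝ) < M := by exact_mod_cast hM
  have hk : (0 : ℝ) < k := by exact_mod_cast (Nat.zero_le _).trans_lt hj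
  have hr' : (r : ℝ) ≤ M := by exact_mod_cast hr
  rw [← cat_at a p hj (u := (r : ℝ) / M) (by positivity) ((div_le_one hM').mpr hr')]
  congr 1
  push_cast
  field_simp

theorem mod_cat (a : ℕ → R3) (p : ∀ i, Path (a i) (a (i + 1))) {k M : ℕ} {ρ : ℝ} (hk : 0 < k)
    (hM : 0 < M) (h : ∀ i < k, Mod (p i) M (ρ / k)) : Mod (cat a p k) (k * M) ρ := by
  intro s t hst
  rw [cat_extend, cat_extend]
  have h1 : |((projIcc (0 : ℝ) 1 zero_le_one s : ℝ)) - (projIcc (0 : ℝ) 1 zero_le_one t : ℝ)| ≤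
      1 / ((k * M : ℕ) : ℝ) := (abs_projIcc_sub_projIcc zero_le_one).trans hst
  set r := ((projIcc (0 : ℝ) 1 zero_le_one s : ℝ))
  set r' := ((projIcc (0 : ℝ) 1 zero_le_one t : ℝ))
  have hk' : (0 : ℝ) < k := by exact_mod_cast hk
  have hM' : (0 : ℝ) < M := by exact_mod_cast hM
  have h2 : ∀ i : ℕ, |(k * r - i) - (k * r' - i)| ≤ 1 / M := by
    intro i
    rw [show (k * r - i) - (k * r' - i) = k * (r - r') by ring, abs_mul, abs_of_pos hk']
    push_cast at h1
    calc (k : ℝ) * |r - r'| ≤ k * (1 / (k * M)) := by gcongr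
      _ = 1 / M := by field_simp
  unfold cfun
  rw [dist_add_left, dist_eq_norm, ← Finset.sum_sub_distrib]
  refine lt_of_le_of_lt (norm_sum_le _ _) ?_
  have h3 : ∀ i ∈ Finset.range k, ‖((p i).extend (k * r - i) - a i) -
      ((p i).extend (k * r' - i) - a i)‖ < ρ / k := by
    intro i hi
    rw [sub_sub_sub_cancel_right, ← dist_eq_norm]
    exact h i (Finset.mem_range.mp hi) _ _ (h2 i)
  refine lt_of_lt_of_le (Finset.sum_lt_sum_of_nonempty ?_ h3) ?_
  · exact Finset.nonempty_range_iff.mpr hk.ne'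
  · rw [Finset.sum_const, Finset.card_range, nsmul_eq_mul]
    field_simp
    exact le_rfl

theorem sum_range_mul {β : Type*} [AddCommMonoid β] (f : ℕ → β) (k M : ℕ) :
    ∑ i ∈ Finset.range (k * M), f i = ∑ j ∈ Finset.range k, ∑ r ∈ Finset.range M, f (j * M + r) := by
  induction k with
  | zero => simp
  | succ k ih => rw [Nat.succ_mul, Finset.sum_range_add, ih, Finset.sum_range_succ]

theorem crossSum_cat {a b : ℕ → R3} {p : ∀ i, Path (a i) (a (i + 1))}
    {q : ∀ i, Path (b i) (b (i + 1))} {k l M : ℕ} (hM : 0 < M) (v : R3) :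
    crossSum v (k * M) (inscribed (cat a p k) (k * M)) (l * M) (inscribed (cat b q l) (l * M)) =
      ∑ i ∈ Finset.range k, ∑ j ∈ Finset.range l,
        crossSum v M (inscribed (p i) M) M (inscribed (q j) M) := by
  unfold crossSum
  rw [sum_range_mul]
  apply Finset.sum_congr rfl
  intro i hi
  rw [Finset.mem_range] at hi
  rw [Finset.sum_comm]
  rw [sum_range_mul]
  apply Finset.sum_congr rfl
  intro j hj
  rw [Finset.mem_range] at hj
  rw [Finset.sum_comm]
  apply Finset.sum_congr rfl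
  intro r hr
  apply Finset.sum_congr rfl
  intro r' hr'
  rw [Finset.mem_range] at hr hr'
  rw [add_assoc, add_assoc, insc_cat a p hi hM hr.le, insc_cat a p hi hM hr, insc_cat b q hj hM hr'.le,
    insc_cat b q hj hM hr']

theorem lk_cat {a b : ℕ → R3} {p : ∀ i, Path (a i) (a (i + 1))}
    {q : ∀ i, Path (b i) (b (i + 1))} {k l M : ℕ} (hk : 0 < k) (hl : 0 < l) (hM : 0 < M) {v : R3}
    (hv : v ≠ 0) {ρ : ℝ} (hρ : 0 < ρ)
    (hfar : ∀ i < k, ∀ j < l, ∀ s t : ℝ, 2 * ρ ≤ dist ((p i).extend s) ((q j).extend t))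
    (hp : ∀ i < k, Mod (p i) M (ρ / k)) (hq : ∀ i < l, Mod (q i) M (ρ / l))
    (hreg : ∀ i < k, ∀ j < l, ∀ r < M, ∀ r' < M, RegPair v (inscribed (p i) M r)
      (inscribed (p i) M (r + 1)) (inscribed (q j) M r') (inscribed (q j) M (r' + 1)))
    (ha : a k = a 0) (hb : b l = b 0) :
    IsLinkingNumber ((cat a p k).cast rfl ha.symm) ((cat b q l).cast rfl hb.symm)
      (∑ i ∈ Finset.range k, ∑ j ∈ Finset.range l,
        crossSum v M (inscribed (p i) M) M (inscribed (q j) M)) := by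
  have hkM : 0 < k * M := Nat.mul_pos hk hM
  have hlM : 0 < l * M := Nat.mul_pos hl hM
  rw [← crossSum_cat hM v]
  apply isLk_of (k := k * M) (k' := l * M) hρ _ hkM hlM
  · intro c hc
    exact sub_unif (mod_cat a p hk hM hp) hc hkM
  · intro c hc
    exact sub_unif (mod_cat b q hl hM hq) hc hlM
  · apply regular_of hv hkM hlM
    intro i hi j hj
    have e1 : i = i / M * M + i % M := by rw [mul_comm]; exact (Nat.div_add_mod i M).symm
    have e2 : j = j / M * M + j % M := by rw [mul_comm]; exact (Nat.div_add_mod j M).symm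
    have h1 : i / M < k := (Nat.div_lt_iff_lt_mul hM).mpr hi
    have h2 : j / M < l := (Nat.div_lt_iff_lt_mul hM).mpr hj
    have h3 := Nat.mod_lt i hM
    have h4 := Nat.mod_lt j hM
    rw [e1, e2, add_assoc, add_assoc, insc_cat a p h1 hM h3.le, insc_cat a p h1 hM h3,
      insc_cat b q h2 hM h4.le, insc_cat b q h2 hM h4]
    exact hreg _ h1 _ h2 _ h3 _ h4
  · intro s t
    obtain ⟨i, hi, u, hu⟩ := cat_mem a p hk s
    obtain ⟨j, hj, u', hu'⟩ := cat_mem b q hl t
    show 2 * ρ ≤ dist ((cat a p k).extend s) ((cat b q l).extend t)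
    rw [hu, hu']
    exact hfar i hi j hj _ _

end Run7.h678.DG
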