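import Mathlib

/-!
# Spatial embeddings of digraphs and intrinsic `n`-linking
-/

namespace Run7.h678.DG

open Set Function

/-- Euclidean three-space. -/
abbrev E3 := EuclideanSpace ℝ (Fin 3)

/-- A digraph: a finite set `V` of vertices and a finite set `E` of edges, every edge with a source
and a different target. Several edges may have the same source and target, and oppositely oriented
edges between two vertices are allowed. -/
structure DirectedGraph where
  /-- the vertices -/
  V : Type
  /-- the edges -/
  E : Type
  finite_V : Finite V
  finite_E : Finite E
  /-- the source of an edge -/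
  src : E → V
  /-- the target of an edge -/
  tgt : E → V
  src_ne_tgt : ∀ e, src e ≠ tgt e

/-- A spatial embedding of a digraph: distinct points of three-space for the vertices and, for every
edge, an arc from the point of its source to the point of its target, such that an arc passes
through no points of vertices other than its two ends and two arcs meet only at common ends. -/
structure SpatialEmbedding (D : DirectedGraph) where
  /-- the points of the vertices -/
  pos : D.V → E3
  pos_injective : Injective pos
  /-- the arcs of the edges -/
  arc : ∀ e : D.E, Path (pos (D.src e)) (pos (D.tgt e))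
  arc_injective : ∀ e, Injective (arc e)
  arc_vertex : ∀ e s x, arc e s = pos x → x = D.src e ∨ x = D.tgt e
  arc_meet : ∀ e f, e ≠ f → ∀ s t, arc e s = arc f t →
    ∃ x, arc e s = pos x ∧ (x = D.src e ∨ x = D.tgt e) ∧ (x = D.src f ∨ x = D.tgt f)

/-- A consistently oriented cycle: edges `edge 0, ..., edge m` such that the target of each is the
source of the next one (cyclically), with distinct sources. -/
structure DirectedCycle (D : DirectedGraph) where
  /-- the number of edges minus one -/
  m : ℕ
  /-- the edges -/
  edge : Fin (m + 1) → D.E
  tgt_edge : ∀ i, D.tgt (edge i) = D.src (edge (i + 1))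
  src_injective : Injective fun i => D.src (edge i)

/-- The image of a cycle under a spatial embedding, the union of the arcs of its edges. -/
def DirectedCycle.image {D : DirectedGraph} (C : DirectedCycle D) (Φ : SpatialEmbedding D) :
    Set E3 := ⋃ i, range (Φ.arc (C.edge i))

/-- Two cycles are vertex-disjoint. -/
def VertexDisjoint {D : DirectedGraph} (C C' : DirectedCycle D) : Prop :=
  ∀ i j, D.src (C.edge i) ≠ D.src (C'.edge j)

/-- The link with components `L i` is nonsplit: for every embedded two-sphere `range σ` disjoint
from it, all points of all its components are on the same side (in the same path component of the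
complement) of the sphere. -/
def Nonsplit {n : ℕ} (L : Fin n → Set E3) : Prop :=
  ∀ σ : Metric.sphere (0 : E3) 1 → E3, Continuous σ → Injective σ →
    (∀ i, Disjoint (range σ) (L i)) → ∀ i j, ∀ x ∈ L i, ∀ y ∈ L j, JoinedIn (range σ)ᶜ x y

/-- The digraph `D` is intrinsically `n`-linked: every spatial embedding of `D` contains `n`
pairwise vertex-disjoint consistently oriented cycles whose images form a nonsplit link. -/
def IntrinsicallyLinked (n : ℕ) (D : DirectedGraph) : Prop :=
  ∀ Φ : SpatialEmbedding D, ∃ C : Fin n → DirectedCycle D,
    (∀ i j, i ≠ j → VertexDisjoint (C i) (C j)) ∧ Nonsplit fun i => (C i).image Φ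

/-- The complete symmetric digraph on `N` vertices: exactly one edge from every vertex to every
other vertex. -/
def completeSymmetric (N : ℕ) : DirectedGraph where
  V := Fin N
  E := {p : Fin N × Fin N // p.1 ≠ p.2}
  finite_V := inferInstance
  finite_E := inferInstance
  src p := p.1.1
  tgt p := p.1.2
  src_ne_tgt p := p.2

/-- The digraph is a tournament: between any two distinct vertices there is exactly one edge, in
one of the two directions. -/
def IsTournament (D : DirectedGraph) : Prop :=
  ∀ x y : D.V, x ≠ y →
    ∃! e : D.E, (D.src e = x ∧ D.tgt e = y) ∨ (D.src e = y ∧ D.tgt e = x)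

end Run7.h678.DG
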