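import Mathlib
import Pool.Agent.Helper683.Lk.Set

/-!
# Homotopy invariance of the linking number

The linking number of `γ` and `δ` (in the sense of `IsLinkingNumber`) does not change under a
homotopy of `γ` with fixed base point in the complement of `δ`.
-/

namespace Run7.h678.DG

open Pool.Agent.Helper683.Lk Topology Filter

theorem lk_near {x y : R3} {γ γ' : Path x x} {δ : Path y y} {ρ : ℝ} (hρ : 0 < ρ)
    (hfar : ∀ s t : ℝ, 2 * ρ ≤ dist (γ.extend s) (δ.extend t))
    (hfar' : ∀ s t : ℝ, 2 * ρ ≤ dist (γ'.extend s) (δ.extend t))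
    (hnear : ∀ s : ℝ, dist (γ.extend s) (γ'.extend s) < ρ / 2) {n : ℤ}
    (h : IsLinkingNumber γ δ n) : IsLinkingNumber γ' δ n := by
  obtain ⟨N, m1, m1', m2, m3⟩ := ((ev_Mod γ (show 0 < ρ / 4 by linarith)).and
    ((ev_Mod γ' (show 0 < ρ / 4 by linarith)).and ((ev_Mod δ hρ).and
      (Filter.eventually_gt_atTop 0)))).exists
  have M1 : Mod γ N ρ := fun s t hst => (m1 s t hst).trans (by linarith)
  have M1' : Mod γ' N ρ := fun s t hst => (m1' s t hst).trans (by linarith)
  -- regular directions
  obtain ⟨v, hv, hreg⟩ := exists_dir (Finset.range N ×ˢ Finset.range N)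
    (fun t => inscribed γ N t.1) (fun t => inscribed γ N (t.1 + 1))
    (fun t => inscribed δ N t.2) (fun t => inscribed δ N (t.2 + 1)) (by
      rintro ⟨i, j⟩ _
      exact seg_disjoint (M1.step m3 le_rfl i) (m2.step m3 le_rfl j) (hfar _ _))
  obtain ⟨v', hv', hreg'⟩ := exists_dir (Finset.range N ×ˢ Finset.range N)
    (fun t => inscribed γ' N t.1) (fun t => inscribed γ' N (t.1 + 1))
    (fun t => inscribed δ N t.2) (fun t => inscribed δ N (t.2 + 1)) (by
      rintro ⟨i, j⟩ _
      exact seg_disjoint (M1'.step m3 le_rfl i) (m2.step m3 le_rfl j) (hfar' _ _))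
  have R : Regular v N (inscribed γ N) N (inscribed δ N) := regular_of hv m3 m3 fun i hi j hj =>
    hreg (i, j) (Finset.mem_product.mpr ⟨Finset.mem_range.mpr hi, Finset.mem_range.mpr hj⟩)
  have R' : Regular v' N (inscribed γ' N) N (inscribed δ N) :=
    regular_of hv' m3 m3 fun i hi j hj =>
    hreg' (i, j) (Finset.mem_product.mpr ⟨Finset.mem_range.mpr hi, Finset.mem_range.mpr hj⟩)
  have I1 := isLk_of (v := v) hρ hfar m3 m3 (fun c hc => sub_unif M1 hc m3)
    (fun c hc => sub_unif m2 hc m3) R
  have I2 := isLk_of (v := v') hρ hfar' m3 m3 (fun c hc => sub_unif M1' hc m3)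
    (fun c hc => sub_unif m2 hc m3) R'
  rw [h.unique I1]
  -- the zigzag polygon
  let b : ℕ → R3 := fun i => if i % 2 = 0 then inscribed γ N (i / 2) else inscribed γ' N (i / 2)
  have be : ∀ i, b (2 * i) = inscribed γ N i := by
    intro i
    have h1 : 2 * i % 2 = 0 := by omega
    have h2 : 2 * i / 2 = i := by omega
    simp only [b, h1, h2, if_true]
  have bo : ∀ i, b (2 * i + 1) = inscribed γ' N i := by
    intro i
    have h1 : ¬ (2 * i + 1) % 2 = 0 := by omega
    have h2 : (2 * i + 1) / 2 = i := by omega
    simp only [b, h1, h2, if_false]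
  have hγγ' : ∀ i, dist (inscribed γ N i) (inscribed γ' N i) < ρ / 2 := fun i => hnear _
  have stepγ : ∀ i, dist (inscribed γ N (i + 1)) (inscribed γ N i) < ρ / 4 :=
    fun i => m1.step m3 le_rfl i
  have stepγ' : ∀ i, dist (inscribed γ' N (i + 1)) (inscribed γ' N i) < ρ / 4 :=
    fun i => m1'.step m3 le_rfl i
  -- mixed distances
  have d1 : ∀ i, dist (inscribed γ' N (i + 1)) (inscribed γ N i) < ρ := by
    intro i
    have := dist_triangle (inscribed γ' N (i + 1)) (inscribed γ N (i + 1)) (inscribed γ N i)
    have h1 := hγγ' (i + 1)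
    rw [dist_comm] at h1
    have h2 := stepγ i
    linarith
  have d2 : ∀ i, dist (inscribed γ N (i + 1)) (inscribed γ' N i) < ρ := by
    intro i
    have := dist_triangle (inscribed γ N (i + 1)) (inscribed γ N i) (inscribed γ' N i)
    have h1 := hγγ' i
    have h2 := stepγ i
    linarith
  have b0 : b 0 = x := by
    have := be 0
    rw [mul_zero] at this
    rw [this, insc_zero]
  have bN : b (2 * N) = x := by rw [be, insc_last _ m3]
  let s' : ℕ → ℕ := fun i => if i = 0 then 0 else if i < N then 2 * i + 1 else 2 * N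
  have S1 : Samp b (2 * N) (fun i => 2 * i) N ρ := by
    refine ⟨?_, rfl, rfl, ?_⟩
    · intro i j hij
      exact Nat.mul_le_mul_left 2 hij
    · intro i _ j h1 h2
      have hj : j = 2 * i ∨ j = 2 * i + 1 ∨ j = 2 * (i + 1) := by omega
      rw [be]
      rcases hj with rfl | rfl | rfl
      · rw [be, dist_self]; exact hρ
      · rw [bo, dist_comm]
        exact (hγγ' i).trans (by linarith)
      · rw [be]
        exact (stepγ i).trans (by linarith)
  have S2 : Samp b (2 * N) s' N ρ := by
    refine ⟨?_, rfl, ?_, ?_⟩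
    · intro i j hij
      simp only [s']
      split_ifs <;> omega
    · simp only [s']
      split_ifs <;> omega
    · intro i hi j h1 h2
      simp only [s'] at h1 h2 ⊢
      by_cases h0 : i = 0
      · subst h0
        have hb0 : b 0 = inscribed γ N 0 := be 0
        rw [if_pos rfl, hb0]
        rw [if_pos rfl] at h1
        have hj : j ≤ 3 := by split_ifs at h2 <;> omega
        interval_cases j
        · rw [hb0, dist_self]; exact hρ
        · have hb1 : b 1 = inscribed γ' N 0 := bo 0
          rw [hb1, dist_comm]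
          exact (hγγ' 0).trans (by linarith)
        · have hb2 : b 2 = inscribed γ N 1 := be 1
          rw [hb2]
          exact (stepγ 0).trans (by linarith)
        · have hb3 : b 3 = inscribed γ' N 1 := bo 1
          rw [hb3]
          exact d1 0
      · rw [if_neg h0, if_pos hi] at h1 ⊢
        have hj : j = 2 * i + 1 ∨ j = 2 * (i + 1) ∨ j = 2 * (i + 1) + 1 := by
          split_ifs at h2 <;> omega
        rw [bo]
        rcases hj with rfl | rfl | rfl
        · rw [bo, dist_self]; exact hρ
        · rw [be]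
          exact d2 i
        · rw [bo]
          exact (stepγ' i).trans (by linarith)
  have T : Samp (inscribed δ N) N (fun i => i) N ρ := by
    refine ⟨fun i j hij => hij, rfl, rfl, ?_⟩
    intro i _ j h1 h2
    have hj : j = i ∨ j = i + 1 := by omega
    rcases hj with rfl | rfl
    · rw [dist_self]; exact hρ
    · exact m2.step m3 le_rfl i
  have p1 : ∀ i ≤ N, inscribed γ N i = b (2 * i) := fun i _ => (be i).symm
  have p2 : ∀ i ≤ N, inscribed γ' N i = b (s' i) := by
    intro i hi
    simp only [s']
    by_cases h0 : i = 0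
    · rw [if_pos h0, b0, h0, insc_zero]
    · rw [if_neg h0]
      by_cases h1 : i < N
      · rw [if_pos h1, bo]
      · rw [if_neg h1, bN, show i = N by omega, insc_last _ m3]
  have key := crossSum_inv (K := 2 * N) (L := N) (a := b) (b := inscribed δ N) (ρ := ρ)
    (by rw [bN, b0]) (by rw [insc_zero, insc_last _ m3])
    (by
      intro i _ j _
      by_cases hi : i % 2 = 0
      · simp only [b, hi, if_true]
        exact hfar _ _
      · simp only [b, hi, if_false]
        exact hfar' _ _)
    (by
      intro i _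
      by_cases hi : i % 2 = 0
      · obtain ⟨k, rfl⟩ : ∃ k, i = 2 * k := ⟨i / 2, by omega⟩
        rw [be, bo, dist_comm]
        exact (hγγ' k).trans (by linarith)
      · obtain ⟨k, rfl⟩ : ∃ k, i = 2 * k + 1 := ⟨i / 2, by omega⟩
        rw [bo, show 2 * k + 1 + 1 = 2 * (k + 1) by ring, be]
        exact d2 k)
    hρ S1 T S2 T (v := v) (v' := v')
    (Regular_congr p1 (fun _ _ => rfl) R) (Regular_congr p2 (fun _ _ => rfl) R')
  have e1 : crossSum v N (inscribed γ N) N (inscribed δ N) =
      crossSum v N (fun i => b (2 * i)) N (fun j => inscribed δ N j) :=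
    crossSum_congr p1 fun _ _ => rfl
  have e2 : crossSum v' N (inscribed γ' N) N (inscribed δ N) =
      crossSum v' N (fun i => b (s' i)) N (fun j => inscribed δ N j) :=
    crossSum_congr p2 fun _ _ => rfl
  rw [e1, key, ← e2]
  exact I2

/-- The linking number with a constant path is zero. -/
theorem lk_refl {x y : R3} {δ : Path y y} {n : ℤ} (h : IsLinkingNumber (Path.refl x) δ n) :
    n = 0 := by
  obtain ⟨N, hN⟩ := h
  obtain ⟨⟨v, hv⟩, h1⟩ := hN N le_rfl N le_rfl
  rw [← h1 v hv]
  have hc : ∀ j, inscribed (Path.refl x) N j = x := by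
    intro j; unfold inscribed; rw [Path.refl_extend]; rfl
  unfold crossSum
  refine Finset.sum_eq_zero fun i _ => Finset.sum_eq_zero fun j _ => ?_
  rw [hc, hc]
  exact cs_deg12 _ _ _ _

/-- A closed curve which can be contracted, with fixed base point, in the complement of `δ` has
linking number zero with `δ`. -/
theorem lk_null {x y : R3} {γ : Path x x} {δ : Path y y} (F : Path.Homotopy γ (Path.refl x))
    (hF : ∀ t s u, F (t, s) ≠ δ u) : IsLinkingNumber γ δ 0 := by
  -- positive distance
  let φ : (unitInterval × unitInterval) × unitInterval → ℝ := fun q => dist (F q.1) (δ q.2)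
  have hφ : Continuous φ := by
    have := F.continuous
    fun_prop
  obtain ⟨q, _, hq⟩ := isCompact_univ.exists_isMinOn (Set.univ_nonempty) hφ.continuousOn
  have hpos : 0 < φ q := dist_pos.mpr (hF _ _ _)
  set ρ : ℝ := φ q / 2 with hρdef
  have hρ : 0 < ρ := by rw [hρdef]; linarith
  have far : ∀ t s u, 2 * ρ ≤ dist (F (t, s)) (δ u) := by
    intro t s u
    have := isMinOn_iff.mp hq ((t, s), u) (Set.mem_univ _)
    have e : 2 * ρ = φ q := by rw [hρdef]; ring
    rw [e]
    exact this
  have ext : ∀ (η : Path x x) (s : ℝ), ∃ s' : unitInterval, η.extend s = η s' :=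
    fun η s => ⟨Set.projIcc 0 1 zero_le_one s, rfl⟩
  have farE : ∀ t, ∀ s u : ℝ, 2 * ρ ≤ dist ((F.eval t).extend s) (δ.extend u) := by
    intro t s u
    exact far t (Set.projIcc 0 1 zero_le_one s) (Set.projIcc 0 1 zero_le_one u)
  -- uniform continuity
  have huc : UniformContinuous (fun p : unitInterval × unitInterval => F p) :=
    CompactSpace.uniformContinuous_of_continuous F.continuous
  obtain ⟨η, hη, hη'⟩ := Metric.uniformContinuous_iff.mp huc (ρ / 2) (by linarith)
  obtain ⟨m, hm⟩ := exists_nat_gt (1 / η)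
  have hm0 : 0 < (m : ℝ) := lt_trans (by positivity) hm
  have hm1 : 1 / (m : ℝ) < η := by
    rw [div_lt_comm₀ hm0 hη]
    exact hm
  -- the partition
  let τ : ℕ → unitInterval := fun k => Set.projIcc 0 1 zero_le_one ((k : ℝ) / m)
  obtain ⟨n, hn⟩ := exists_linkingNumber γ δ (fun s t => by
    have := hF 0 s t
    rwa [F.apply_zero] at this)
  have hall : ∀ k : ℕ, IsLinkingNumber (F.eval (τ k)) δ n := by
    intro k
    induction k with
    | zero =>
      have e : F.eval (τ 0) = γ := by
        have : τ 0 = 0 := by simp [τ]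
        rw [this]
        exact F.eval_zero
      rw [e]
      exact hn
    | succ k ih =>
      refine lk_near hρ (farE _) (farE _) ?_ ih
      intro s
      show dist (F (τ k, Set.projIcc 0 1 zero_le_one s))
        (F (τ (k + 1), Set.projIcc 0 1 zero_le_one s)) < ρ / 2
      apply hη'
      rw [Prod.dist_eq, dist_self, max_lt_iff]
      refine ⟨lt_of_le_of_lt ?_ hm1, hη⟩
      have hl : dist (τ k) (τ (k + 1)) ≤ dist ((k : ℝ) / m) (((k + 1 : ℕ) : ℝ) / m) := by
        have := (LipschitzWith.projIcc (zero_le_one (α := ℝ))).dist_le_mul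
          ((k : ℝ) / m) (((k + 1 : ℕ) : ℝ) / m)
        rw [NNReal.coe_one, one_mul] at this
        exact this
      refine hl.trans (le_of_eq ?_)
      rw [Real.dist_eq, ← sub_div]
      push_cast
      rw [show (k : ℝ) - (k + 1) = -1 by ring, abs_div, abs_neg, abs_one, abs_of_pos hm0]
  have hlast := hall m
  have e : F.eval (τ m) = Path.refl x := by
    have : τ m = 1 := by
      simp only [τ]
      rw [div_self hm0.ne']
      exact Set.projIcc_right _
    rw [this]
    exact F.eval_one
  rw [e] at hlast
  rw [← lk_refl hlast]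
  exact hn

end Run7.h678.DG
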