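import Mathlib
import Pool.Agent.Run7.h678.DG.Htpy

/-!
# Curves separated by an embedded sphere have linking number zero
-/

namespace Run7.h678.DG

open Pool.Agent.Helper683.Lk Topology Filter Set Function

/-- A continuous map from a closed subset of the plane to the unit sphere of three-space extends
to the whole plane. -/
theorem sphere_ext {A : Set (ℝ × ℝ)} (hA : IsClosed A) (g0 : C(A, R3)) (h0 : ∀ z, ‖g0 z‖ = 1) :
    ∃ G : ℝ × ℝ → R3, Continuous G ∧ (∀ z, ‖G z‖ = 1) ∧ ∀ z : A, G z = g0 z := by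
  obtain ⟨g, hg⟩ := ContinuousMap.exists_restrict_eq hA g0
  obtain ⟨g', c', d', -⟩ := g.continuous.exists_contDiff_approx (E := ℝ × ℝ) (F := R3) 1
    (ε := fun _ => 1 / 4) continuous_const (fun _ => by norm_num)
  have hdense : Dense (range g')ᶜ := by
    apply ContDiff.dense_compl_range_of_finrank_lt_finrank (h := c')
    simp
  obtain ⟨p, hp1, hp2⟩ := hdense.inter_open_nonempty (Metric.ball 0 (1 / 4)) Metric.isOpen_ball
    ⟨0, Metric.mem_ball_self (by norm_num)⟩
  have hp : ‖p‖ < 1 / 4 := by simpa using hp1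
  let χ : ℝ × ℝ → ℝ := fun z => max 0 (min 1 (4 * (1 - ‖g z‖)))
  have hχ : Continuous χ := by
    have := g.continuous
    fun_prop
  let G1 : ℝ × ℝ → R3 := fun z => g z + χ z • (g' z - p - g z)
  have hG1 : Continuous G1 := by
    have h1 := g.continuous
    have h2 : Continuous g' := c'.continuous
    fun_prop
  have hne : ∀ z, G1 z ≠ 0 := by
    intro z hz
    by_cases h : ‖g z‖ ≤ 3 / 4
    · have h1 : χ z = 1 := by
        simp only [χ]
        rw [min_eq_left (by linarith), max_eq_right (by norm_num)]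
      simp only [G1, h1, one_smul, add_sub_cancel] at hz
      exact hp2 ⟨z, sub_eq_zero.mp hz⟩
    · rw [not_le] at h
      have hχ0 : 0 ≤ χ z := le_max_left _ _
      have hχ1 : χ z ≤ 1 := max_le (by norm_num) (min_le_left _ _)
      have h1 : ‖g' z - p - g z‖ ≤ 1 / 2 := by
        have e : g' z - p - g z = (g' z - g z) - p := by abel
        rw [e]
        have := norm_sub_le (g' z - g z) p
        have h2 := d' z
        rw [dist_eq_norm] at h2
        linarith
      have h2 : ‖χ z • (g' z - p - g z)‖ ≤ 1 / 2 := by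
        rw [norm_smul, Real.norm_eq_abs, abs_of_nonneg hχ0]
        nlinarith [norm_nonneg (g' z - p - g z)]
      have h3 : g z = - (χ z • (g' z - p - g z)) := eq_neg_of_add_eq_zero_left hz
      have h4 : ‖g z‖ = ‖χ z • (g' z - p - g z)‖ := by
        conv_lhs => rw [h3]
        exact norm_neg _
      linarith
  refine ⟨fun z => ‖G1 z‖⁻¹ • G1 z, ?_, ?_, ?_⟩
  · exact (hG1.norm.inv₀ fun z => norm_ne_zero_iff.mpr (hne z)).smul hG1
  · intro z
    rw [norm_smul, norm_inv, norm_norm]
    exact inv_mul_cancel₀ (norm_ne_zero_iff.mpr (hne z))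
  · intro z
    have e1 : g z = g0 z := by rw [← hg]; rfl
    have e2 : χ z = 0 := by
      simp only [χ]
      rw [e1, h0, sub_self, mul_zero]
      simp
    have e3 : G1 z = g0 z := by
      simp only [G1, e2, zero_smul, add_zero, e1]
    simp only [e3, h0, inv_one, one_smul]

theorem joinedIn_range {X : Type*} [TopologicalSpace X] {x y : X} (γ : Path x y)
    (s : unitInterval) : JoinedIn (range γ) x (γ s) := by
  have h1 : JoinedIn (univ : Set unitInterval) 0 s := by
    have h2 : JoinedIn (Set.Icc (0 : ℝ) 1) 0 s :=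
      ((convex_Icc (0 : ℝ) 1).isPathConnected ⟨0, by simp⟩).joinedIn 0 (by simp) s s.2
    obtain ⟨p, hp⟩ := h2
    exact ⟨⟨⟨fun t => ⟨p t, hp t⟩, by fun_prop⟩, Subtype.ext p.source, Subtype.ext p.target⟩,
      fun _ => mem_univ _⟩
  obtain ⟨p, -⟩ := h1
  exact ⟨(p.map γ.continuous).cast γ.source.symm rfl, fun t => ⟨p t, rfl⟩⟩

/-- If an embedded sphere separates the closed curves `γ` and `δ`, then `γ` can be contracted in
the complement of `δ`, with fixed base point. -/
theorem sep_null {σ : Metric.sphere (0 : R3) 1 → R3} (hσ : Continuous σ) (hinj : Injective σ)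
    {x y : R3} (γ : Path x x) (δ : Path y y) (hγ : ∀ s, γ s ∉ range σ) (hδ : ∀ s, δ s ∉ range σ)
    (hxy : ¬ JoinedIn (range σ)ᶜ y x) :
    ∃ F : Path.Homotopy γ (Path.refl x), ∀ t s u, F (t, s) ≠ δ u := by
  classical
  have : CompactSpace (Metric.sphere (0 : R3) 1) :=
    isCompact_iff_compactSpace.mp (isCompact_sphere _ _)
  have hS : IsClosed (range σ) := (isCompact_range hσ).isClosed
  have hemb : IsEmbedding σ := (hσ.isClosedEmbedding hinj).isEmbedding
  -- the side of `δ`
  let V : Set R3 := {z | JoinedIn (range σ)ᶜ y z}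
  have hball : ∀ z w, z ∉ range σ → w ∈ Metric.ball z (Metric.infDist z (range σ)) →
      JoinedIn (range σ)ᶜ z w := by
    intro z w hz hw
    have hsub : Metric.ball z (Metric.infDist z (range σ)) ⊆ (range σ)ᶜ := by
      rw [subset_compl_iff_disjoint_right]
      exact Metric.disjoint_ball_infDist
    have hpos : 0 < Metric.infDist z (range σ) := lt_of_le_of_lt dist_nonneg (Metric.mem_ball.mp hw)
    have hconv : IsPathConnected (Metric.ball z (Metric.infDist z (range σ))) :=
      (convex_ball _ _).isPathConnected ⟨z, Metric.mem_ball_self hpos⟩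
    exact (hconv.joinedIn z (Metric.mem_ball_self hpos) w hw).mono hsub
  have hne : (range σ).Nonempty := by
    obtain ⟨v, hv⟩ : (Metric.sphere (0 : R3) 1).Nonempty := NormedSpace.sphere_nonempty.mpr zero_le_one
    exact ⟨σ ⟨v, hv⟩, mem_range_self _⟩
  have hposd : ∀ z, z ∉ range σ → 0 < Metric.infDist z (range σ) := fun z hz =>
    (hS.notMem_iff_infDist_pos hne).mp hz
  have hVS : V ⊆ (range σ)ᶜ := fun z hz => hz.target_mem
  have hfr : frontier V ⊆ range σ := by
    intro z hz
    by_contra hzS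
    have hcl : z ∈ closure V := hz.1
    obtain ⟨w, hw1, hw2⟩ := mem_closure_iff_nhds.mp hcl _
      (Metric.ball_mem_nhds z (hposd z hzS))
    have hzV : z ∈ V := (show JoinedIn (range σ)ᶜ y w from hw2).trans (hball z w hzS hw1).symm
    apply hz.2
    rw [mem_interior_iff_mem_nhds]
    filter_upwards [Metric.ball_mem_nhds z (hposd z hzS)] with w hw
    exact (show JoinedIn (range σ)ᶜ y z from hzV).trans (hball z w hzS hw)
  -- the cone over `γ`
  let f : ℝ × ℝ → R3 := fun z => (1 - z.1) • γ.extend z.2 + z.1 • x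
  have hf : Continuous f := by
    have := γ.continuous_extend
    fun_prop
  let A : Set (ℝ × ℝ) := f ⁻¹' range σ
  have hA : IsClosed A := hS.preimage hf
  let e := hemb.toHomeomorph
  let g0 : C(A, R3) := ⟨fun z => ((e.symm ⟨f z, z.2⟩ : Metric.sphere (0 : R3) 1) : R3), by
    have h1 : Continuous fun z : A => (⟨f z, z.2⟩ : range σ) :=
      Continuous.subtype_mk (hf.comp continuous_subtype_val) _
    exact continuous_subtype_val.comp (e.symm.continuous.comp h1)⟩
  obtain ⟨G, hG, hG1, hG2⟩ := sphere_ext hA g0 (fun z => by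
    have := (e.symm ⟨f z, z.2⟩ : Metric.sphere (0 : R3) 1).2
    rw [mem_sphere_zero_iff_norm] at this
    exact this)
  let G' : ℝ × ℝ → Metric.sphere (0 : R3) 1 := fun z => ⟨G z, mem_sphere_zero_iff_norm.mpr (hG1 z)⟩
  have hG' : Continuous G' := Continuous.subtype_mk hG _
  have hG'A : ∀ z, f z ∈ range σ → σ (G' z) = f z := by
    intro z hz
    have h1 : G z = ((e.symm ⟨f z, hz⟩ : Metric.sphere (0 : R3) 1) : R3) := hG2 ⟨z, hz⟩
    have h2 : G' z = e.symm ⟨f z, hz⟩ := Subtype.ext h1
    rw [h2]
    have h3 : e (e.symm ⟨f z, hz⟩) = ⟨f z, hz⟩ := e.apply_symm_apply _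
    exact congrArg Subtype.val h3
  -- the modified cone
  let f' : ℝ × ℝ → R3 := fun z => if f z ∈ V then σ (G' z) else f z
  have hf' : Continuous f' := by
    apply Continuous.if _ (hσ.comp hG') hf
    intro z hz
    apply hG'A
    exact hfr ((hf.frontier_preimage_subset V) hz)
  have hf'V : ∀ z, f' z ∉ V := by
    intro z
    simp only [f']
    split_ifs with h
    · exact fun h' => hVS h' (mem_range_self _)
    · exact h
  have hγS : ∀ s : ℝ, γ.extend s ∈ (range σ)ᶜ := fun s => hγ _
  -- points of `γ` are not on the side of `δ`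
  have hγV : ∀ s, γ s ∉ V := by
    intro s hs
    apply hxy
    have h1 : JoinedIn (range σ)ᶜ y (γ s) := hs
    refine h1.trans (JoinedIn.symm ?_)
    have h2 : JoinedIn (range γ) x (γ s) := joinedIn_range γ s
    exact h2.mono (by rintro _ ⟨u, rfl⟩; exact hγ u)
  have hxV : x ∉ V := by
    have := hγV 0
    rwa [γ.source] at this
  have hδV : ∀ u, δ u ∈ V := by
    intro u
    have h2 : JoinedIn (range δ) y (δ u) := joinedIn_range δ u
    exact h2.mono (by rintro _ ⟨u, rfl⟩; exact hδ u)
  have hf's : ∀ z, f z ∉ V → f' z = f z := fun z hz => if_neg hz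
  refine ⟨⟨⟨⟨fun q => f' ((q.1 : ℝ), (q.2 : ℝ)), by fun_prop⟩, ?_, ?_⟩, ?_⟩, ?_⟩
  · intro s
    have e1 : f ((0 : unitInterval), (s : ℝ)) = γ s := by
      simp only [f, Set.Icc.coe_zero, sub_zero, one_smul, zero_smul, add_zero]
      exact γ.extend_apply s.2
    show f' (((0 : unitInterval) : ℝ), (s : ℝ)) = γ s
    rw [hf's _ (by rw [e1]; exact hγV s), e1]
  · intro s
    have e1 : f ((1 : unitInterval), (s : ℝ)) = x := by
      simp only [f, Set.Icc.coe_one, sub_self, one_smul, zero_smul, zero_add]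
    show f' (((1 : unitInterval) : ℝ), (s : ℝ)) = x
    rw [hf's _ (by rw [e1]; exact hxV), e1]
  · intro t s hs
    have e1 : f ((t : ℝ), (s : ℝ)) = x := by
      have h1 : γ.extend (s : ℝ) = x := by
        rcases hs with rfl | hs
        · simp
        · rw [mem_singleton_iff] at hs
          subst hs
          simp
      simp only [f, h1]
      rw [← add_smul, sub_add_cancel, one_smul]
    show f' ((t : ℝ), (s : ℝ)) = γ s
    rw [hf's _ (by rw [e1]; exact hxV), e1]
    rcases hs with rfl | hs
    · simp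
    · rw [mem_singleton_iff] at hs
      subst hs
      simp
  · intro t s u h
    have h1 : f' ((t : ℝ), (s : ℝ)) = δ u := h
    exact hf'V _ (h1 ▸ hδV u)

/-- Closed curves separated by an embedded sphere have linking number zero. -/
theorem sep_lk {σ : Metric.sphere (0 : R3) 1 → R3} (hσ : Continuous σ) (hinj : Injective σ)
    {x y : R3} {γ : Path x x} {δ : Path y y} (hγ : ∀ s, γ s ∉ range σ) (hδ : ∀ s, δ s ∉ range σ)
    (hxy : ¬ JoinedIn (range σ)ᶜ x y) {n : ℤ} (h : IsLinkingNumber γ δ n) : n = 0 := by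
  obtain ⟨F, hF⟩ := sep_null hσ hinj γ δ hγ hδ (fun h' => hxy h'.symm)
  exact h.unique (lk_null F hF)

end Run7.h678.DG
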