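import Mathlib
import Pool.Agent.Run7.h678.DG.Def
import Pool.Agent.Run7.h678.DG.Cat
import Pool.Agent.Run7.h678.DG.Sep
import Pool.Agent.Helper683.Lk.K6P

/-!
# Linking numbers of the cycles of a spatial digraph
-/

namespace Run7.h678.DG

open Pool.Agent.Helper683.Lk Topology Filter Set Function

variable {D : DirectedGraph}

/-- two edges without common ends -/
def Apart (D : DirectedGraph) (e f : D.E) : Prop :=
  D.src e ≠ D.src f ∧ D.src e ≠ D.tgt f ∧ D.tgt e ≠ D.src f ∧ D.tgt e ≠ D.tgt f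

/-- the edges of a cycle, indexed by the natural numbers -/
def DirectedCycle.ed (C : DirectedCycle D) (i : ℕ) : D.E := C.edge (Fin.ofNat (C.m + 1) i)

theorem DirectedCycle.ed_tgt (C : DirectedCycle D) (i : ℕ) :
    D.tgt (C.ed i) = D.src (C.ed (i + 1)) := by
  unfold DirectedCycle.ed
  rw [C.tgt_edge]
  congr 2
  apply Fin.ext
  simp [Fin.val_add]

theorem DirectedCycle.ed_last (C : DirectedCycle D) : C.ed (C.m + 1) = C.ed 0 := by
  unfold DirectedCycle.ed
  congr 1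
  apply Fin.ext
  simp

theorem DirectedCycle.ed_val (C : DirectedCycle D) (i : Fin (C.m + 1)) : C.ed i = C.edge i := by
  unfold DirectedCycle.ed
  congr 1
  apply Fin.ext
  simp

theorem apart_of_disjoint {C C' : DirectedCycle D} (h : VertexDisjoint C C') (i j : ℕ) :
    Apart D (C.ed i) (C'.ed j) := by
  have h' : ∀ i j, D.src (C.ed i) ≠ D.src (C'.ed j) := fun i j => h _ _
  refine ⟨h' _ _, ?_, ?_, ?_⟩
  · rw [C'.ed_tgt]; exact h' _ _
  · rw [C.ed_tgt]; exact h' _ _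
  · rw [C'.ed_tgt, C.ed_tgt]; exact h' _ _

/-- A weak form of spatial embeddings: only edges without common ends have disjoint arcs. -/
structure QEmb (D : DirectedGraph) where
  /-- the points of the vertices -/
  pos : D.V → E3
  /-- the arcs of the edges -/
  arc : ∀ e : D.E, Path (pos (D.src e)) (pos (D.tgt e))
  apart : ∀ e f, Apart D e f → ∀ s t, arc e s ≠ arc f t

/-- The image of a cycle, the union of the arcs of its edges. -/
def DirectedCycle.qimage (C : DirectedCycle D) (Φ : QEmb D) : Set E3 :=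
  ⋃ i, range (Φ.arc (C.edge i))

theorem arcs_ne (Φ : SpatialEmbedding D) {e f : D.E} (h : Apart D e f) (s t : unitInterval) :
    Φ.arc e s ≠ Φ.arc f t := by
  intro he
  have hne : e ≠ f := by rintro rfl; exact h.1 rfl
  obtain ⟨x, -, h1 | h1, h2 | h2⟩ := Φ.arc_meet e f hne s t he
  · exact h.1 (h1 ▸ h2)
  · exact h.2.1 (h1 ▸ h2)
  · exact h.2.2.1 (h1 ▸ h2)
  · exact h.2.2.2 (h1 ▸ h2)

/-- a spatial embedding is a weak one -/
def SpatialEmbedding.toQ (Φ : SpatialEmbedding D) : QEmb D where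
  pos := Φ.pos
  arc := Φ.arc
  apart _ _ h := arcs_ne Φ h

variable (Φ : QEmb D)

/-- the arcs of a cycle as a chain of paths -/
noncomputable def DirectedCycle.arcs (C : DirectedCycle D) (i : ℕ) :
    Path (Φ.pos (D.src (C.ed i))) (Φ.pos (D.src (C.ed (i + 1)))) :=
  (Φ.arc (C.ed i)).cast rfl (congrArg Φ.pos (C.ed_tgt i).symm)

theorem DirectedCycle.last_pos (C : DirectedCycle D) :
    Φ.pos (D.src (C.ed (C.m + 1))) = Φ.pos (D.src (C.ed 0)) := by rw [C.ed_last]

/-- the closed curve running through the arcs of a cycle -/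
noncomputable def DirectedCycle.curve (C : DirectedCycle D) :
    Path (Φ.pos (D.src (C.ed 0))) (Φ.pos (D.src (C.ed 0))) :=
  (cat (fun i => Φ.pos (D.src (C.ed i))) (C.arcs Φ) (C.m + 1)).cast rfl (C.last_pos Φ).symm

theorem DirectedCycle.range_curve (C : DirectedCycle D) : range (C.curve Φ) = C.qimage Φ := by
  have h : range (C.curve Φ) =
      range (cat (fun i => Φ.pos (D.src (C.ed i))) (C.arcs Φ) (C.m + 1)) := rfl
  rw [h, cat_range _ _ (Nat.succ_pos _)]
  unfold DirectedCycle.qimage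
  apply iUnion_congr
  intro i
  show range (Φ.arc (C.ed i)) = range (Φ.arc (C.edge i))
  rw [C.ed_val]

/-- Data from which all linking numbers of pairs of disjoint cycles can be read off. -/
structure Scale (Φ : QEmb D) (N : ℕ) where
  M : ℕ
  v : R3
  ρ : ℝ
  hM : 0 < M
  hv : v ≠ 0
  hρ : 0 < ρ
  hfar : ∀ e f, Apart D e f → ∀ s t : ℝ, 2 * ρ ≤ dist ((Φ.arc e).extend s) ((Φ.arc f).extend t)
  hmod : ∀ e, Mod (Φ.arc e) M (ρ / N)
  hreg : ∀ e f, Apart D e f → ∀ r < M, ∀ r' < M, RegPair v (inscribed (Φ.arc e) M r)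
      (inscribed (Φ.arc e) M (r + 1)) (inscribed (Φ.arc f) M r') (inscribed (Φ.arc f) M (r' + 1))
  hseg : ∀ e f, Apart D e f → ∀ r < M, ∀ r' < M,
    Disjoint (segment ℝ (inscribed (Φ.arc e) M r) (inscribed (Φ.arc e) M (r + 1)))
      (segment ℝ (inscribed (Φ.arc f) M r') (inscribed (Φ.arc f) M (r' + 1)))

theorem exists_scale {N : ℕ} (hN : 0 < N) : Nonempty (Scale Φ N) := by
  classical
  have := D.finite_E
  have hev : ∀ᶠ ρ : ℝ in 𝓝[>] 0, ∀ q : D.E × D.E, Apart D q.1 q.2 → ∀ s t : ℝ,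
      2 * ρ ≤ dist ((Φ.arc q.1).extend s) ((Φ.arc q.2).extend t) := by
    rw [eventually_all]
    intro q
    by_cases h : Apart D q.1 q.2
    · filter_upwards [ev_far (Φ.arc q.1) (Φ.arc q.2) (Φ.apart _ _ h)] with ρ hρ _
      exact hρ
    · exact Eventually.of_forall fun _ h' => absurd h' h
  obtain ⟨ρ, h1, h2⟩ := (hev.and self_mem_nhdsWithin).exists
  have hρ : 0 < ρ := h2
  have hN' : (0 : ℝ) < N := by exact_mod_cast hN
  have hN1 : (1 : ℝ) ≤ N := by exact_mod_cast hN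
  have hρN : 0 < ρ / N := by positivity
  have hle : ρ / N ≤ ρ := div_le_self hρ.le hN1
  obtain ⟨M, h3, h4⟩ := ((eventually_all.mpr fun e : D.E => ev_Mod (Φ.arc e) hρN).and
    (eventually_gt_atTop 0)).exists
  have : Fintype (D.E × D.E) := Fintype.ofFinite _
  obtain ⟨v, hv, hreg⟩ := exists_dir
    ((Finset.univ.filter fun q : D.E × D.E => Apart D q.1 q.2) ×ˢ (Finset.range M ×ˢ Finset.range M))
    (fun q => inscribed (Φ.arc q.1.1) M q.2.1) (fun q => inscribed (Φ.arc q.1.1) M (q.2.1 + 1))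
    (fun q => inscribed (Φ.arc q.1.2) M q.2.2) (fun q => inscribed (Φ.arc q.1.2) M (q.2.2 + 1)) (by
      rintro ⟨⟨e, f⟩, i, j⟩ hq
      rw [Finset.mem_product, Finset.mem_filter] at hq
      exact seg_disjoint (((h3 e).step h4 le_rfl i).trans_le hle)
        (((h3 f).step h4 le_rfl j).trans_le hle) (h1 (e, f) hq.1.2 _ _))
  refine ⟨⟨M, v, ρ, h4, hv, hρ, fun e f h => h1 (e, f) h, h3, fun e f h r hr r' hr' => ?_,
    fun e f h r hr r' hr' => ?_⟩⟩
  · exact hreg ((e, f), (r, r')) (by simp [h, hr, hr'])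
  · exact seg_disjoint (((h3 e).step h4 le_rfl r).trans_le hle)
        (((h3 f).step h4 le_rfl r').trans_le hle) (h1 (e, f) h _ _)

variable {Φ}

/-- contribution of a pair of edges -/
noncomputable def Scale.T {N : ℕ} (S : Scale Φ N) (e f : D.E) : ℤ :=
  crossSum S.v S.M (inscribed (Φ.arc e) S.M) S.M (inscribed (Φ.arc f) S.M)

theorem Scale.lk {N : ℕ} (S : Scale Φ N) {C C' : DirectedCycle D} (h : VertexDisjoint C C')
    (hC : C.m + 1 ≤ N) (hC' : C'.m + 1 ≤ N) :
    IsLinkingNumber (C.curve Φ) (C'.curve Φ)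
      (∑ i ∈ Finset.range (C.m + 1), ∑ j ∈ Finset.range (C'.m + 1), S.T (C.ed i) (C'.ed j)) := by
  have hmon : ∀ {k : ℕ}, k + 1 ≤ N → ∀ e, Mod (Φ.arc e) S.M (S.ρ / ((k + 1 : ℕ) : ℝ)) := by
    intro k hk e s t hst
    have hk' : ((k + 1 : ℕ) : ℝ) ≤ N := by exact_mod_cast hk
    have hk0 : (0 : ℝ) < ((k + 1 : ℕ) : ℝ) := by positivity
    refine (S.hmod e s t hst).trans_le ?_
    exact div_le_div_of_nonneg_left S.hρ.le hk0 hk'
  exact lk_cat (a := fun i => Φ.pos (D.src (C.ed i))) (b := fun i => Φ.pos (D.src (C'.ed i)))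
    (p := C.arcs Φ) (q := C'.arcs Φ) (Nat.succ_pos _) (Nat.succ_pos _) S.hM S.hv S.hρ
    (fun i _ j _ s t => S.hfar _ _ (apart_of_disjoint h i j) s t)
    (fun i _ => hmon hC _) (fun i _ => hmon hC' _)
    (fun i _ j _ r hr r' hr' => S.hreg _ _ (apart_of_disjoint h i j) r hr r' hr')
    (C.last_pos Φ) (C'.last_pos Φ)

/-- the base points of two disjoint cycles with odd linking number are not separated by a sphere -/
theorem joined_of_odd {N : ℕ} (S : Scale Φ N) {C C' : DirectedCycle D} (h : VertexDisjoint C C')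
    (hC : C.m + 1 ≤ N) (hC' : C'.m + 1 ≤ N)
    (hodd : ((∑ i ∈ Finset.range (C.m + 1), ∑ j ∈ Finset.range (C'.m + 1),
      S.T (C.ed i) (C'.ed j) : ℤ) : ZMod 2) = 1)
    {σ : Metric.sphere (0 : E3) 1 → E3} (hσ : Continuous σ) (hinj : Injective σ)
    (h1 : Disjoint (range σ) (C.qimage Φ)) (h2 : Disjoint (range σ) (C'.qimage Φ)) :
    ∀ x ∈ C.qimage Φ, ∀ y ∈ C'.qimage Φ, JoinedIn (range σ)ᶜ x y := by
  have g1 : ∀ s, C.curve Φ s ∉ range σ := by
    intro s hs
    refine disjoint_left.mp h1 hs ?_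
    rw [← C.range_curve]
    exact ⟨s, rfl⟩
  have g2 : ∀ s, C'.curve Φ s ∉ range σ := by
    intro s hs
    refine disjoint_left.mp h2 hs ?_
    rw [← C'.range_curve]
    exact ⟨s, rfl⟩
  have hj : JoinedIn (range σ)ᶜ (Φ.pos (D.src (C.ed 0))) (Φ.pos (D.src (C'.ed 0))) := by
    by_contra hxy
    have := sep_lk hσ hinj g1 g2 hxy (S.lk h hC hC')
    rw [this] at hodd
    exact absurd hodd (by decide)
  intro x hx y hy
  rw [← C.range_curve] at hx
  rw [← C'.range_curve] at hy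
  obtain ⟨s, rfl⟩ := hx
  obtain ⟨t, rfl⟩ := hy
  have j1 := (joinedIn_range (C.curve Φ) s).mono (V := (range σ)ᶜ) (by rintro _ ⟨u, rfl⟩; exact g1 u)
  have j2 := (joinedIn_range (C'.curve Φ) t).mono (V := (range σ)ᶜ) (by rintro _ ⟨u, rfl⟩; exact g2 u)
  exact j1.symm.trans (hj.trans j2)

/-! ### the complete symmetric digraph -/

/-- contributions of pairs of ordered pairs of vertices, modulo two -/
noncomputable def Scale.t {n N : ℕ} {Φ : QEmb (completeSymmetric n)} (S : Scale Φ N)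
    (x y u v : Fin n) : ZMod 2 :=
  if h : x ≠ y ∧ u ≠ v then ((S.T (⟨(x, y), h.1⟩ : (completeSymmetric n).E) ⟨(u, v), h.2⟩ : ℤ) : ZMod 2)
  else 0

theorem Scale.t_eq {n N : ℕ} {Φ : QEmb (completeSymmetric n)} (S : Scale Φ N)
    {x y u v : Fin n} (h : x ≠ y) (h' : u ≠ v) :
    S.t x y u v = ((S.T (⟨(x, y), h⟩ : (completeSymmetric n).E) ⟨(u, v), h'⟩ : ℤ) : ZMod 2) :=
  dif_pos ⟨h, h'⟩

theorem Scale.ten_t {n N : ℕ} {Φ : QEmb (completeSymmetric n)} (S : Scale Φ N)
    (w : Fin 6 → Fin n) (hw : Injective w) :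
    ten (fun a b x y => S.t (w a) (w b) (w x) (w y)) = 1 := by
  classical
  let p : Fin 6 → Fin 6 → ℕ → R3 := fun a b j =>
    if h : w a ≠ w b then
      inscribed (Φ.arc (⟨(w a, w b), h⟩ : (completeSymmetric n).E)) S.M j else 0
  have hp : ∀ a b (h : w a ≠ w b),
      p a b = inscribed (Φ.arc (⟨(w a, w b), h⟩ : (completeSymmetric n).E)) S.M := by
    intro a b h
    funext j
    simp only [p]
    rw [dif_pos h]
  have hne : ∀ {a b : Fin 6}, a < b → w a ≠ w b := fun h => hw.ne h.ne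
  have hap : ∀ {a b x y : Fin 6} (h : a < b) (h' : x < y), a ≠ x → a ≠ y → b ≠ x → b ≠ y →
      Apart (completeSymmetric n) ⟨(w a, w b), hne h⟩ ⟨(w x, w y), hne h'⟩ :=
    fun h h' h1 h2 h3 h4 => ⟨hw.ne h1, hw.ne h2, hw.ne h3, hw.ne h4⟩
  have key := k6_poly (fun a => Φ.pos (w a)) p S.M S.hM
    (fun a b h => by rw [hp a b (hne h)]; exact insc_zero _ _)
    (fun a b h => by rw [hp a b (hne h)]; exact insc_last _ S.hM) S.v S.hv
    (fun a b x y h h' h1 h2 h3 h4 i hi j hj => by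
      rw [hp a b (hne h), hp x y (hne h')]
      exact S.hreg _ _ (hap h h' h1 h2 h3 h4) i hi j hj)
    (fun a b x y h h' h1 h2 h3 h4 i hi j hj => by
      rw [hp a b (hne h), hp x y (hne h')]
      exact S.hseg _ _ (hap h h' h1 h2 h3 h4) i hi j hj)
  rw [← key]
  apply ten_congr
  intro a b x y h h' h1 h2 h3 h4
  rw [S.t_eq (hne h) (hne h'), hp a b (hne h), hp x y (hne h')]
  rfl

end Run7.h678.DG
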