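import Mathlib
import Pool.Agent.Helper683.Lk.K6

/-!
# The combinatorial part: a long directed cycle linking many short ones
-/

namespace Run7.h678.DG

open Pool.Agent.Helper683.Lk Function

/-! ### a choice of signs -/

theorem half {B k : ℕ} (hB : B = 2 * k) (K : Fin B → ZMod 2) (g : Fin B → Fin B → ZMod 2)
    (hg : ∀ j, g j j = 1) :
    ∃ s : Fin B → ZMod 2, k ≤ (Finset.univ.filter fun j => K j + ∑ i, s i * g i j = 1).card := by
  classical
  let f : ZMod 2 → ℤ := fun x => if x = 1 then -1 else 1
  have hf : ∀ x : ZMod 2, f x + f (x + 1) = 0 := by decide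
  have h0 : ∀ j, ∑ s : Fin B → ZMod 2, f (K j + ∑ i, s i * g i j) = 0 := by
    intro j
    have hval : ∀ s : Fin B → ZMod 2, K j + ∑ i, (update s j (s j + 1)) i * g i j =
        (K j + ∑ i, s i * g i j) + 1 := by
      intro s
      have h1 : ∀ i, (update s j (s j + 1)) i * g i j = s i * g i j + if i = j then 1 else 0 := by
        intro i
        by_cases h : i = j
        · subst h
          rw [update_self, if_pos rfl, hg]
          ring
        · rw [update_of_ne h, if_neg h, add_zero]
      rw [Finset.sum_congr rfl fun i _ => h1 i, Finset.sum_add_distrib]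
      simp only [Finset.sum_ite_eq', Finset.mem_univ, if_true]
      ring
    apply Finset.sum_involution (fun s _ => update s j (s j + 1))
    · intro s _
      rw [hval]
      exact hf _
    · intro s _ _ h
      have := congrFun h j
      rw [update_self] at this
      exact absurd this (by generalize s j = x; revert x; decide)
    · intro s _
      funext i
      by_cases h : i = j
      · subst h
        rw [update_self, update_self]
        generalize s i = x
        revert x
        decide
      · rw [update_of_ne h, update_of_ne h]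
    · intro s _
      exact Finset.mem_univ _
  have h1 : ∑ s : Fin B → ZMod 2, ∑ j, f (K j + ∑ i, s i * g i j) = 0 := by
    rw [Finset.sum_comm]
    exact Finset.sum_eq_zero fun j _ => h0 j
  obtain ⟨s, -, hs⟩ := Finset.exists_le_of_sum_le (s := (Finset.univ : Finset (Fin B → ZMod 2)))
    (f := fun s => ∑ j, f (K j + ∑ i, s i * g i j)) (g := fun _ => (0 : ℤ))
    Finset.univ_nonempty (by rw [h1, Finset.sum_const_zero])
  refine ⟨s, ?_⟩
  have h2 : ∑ j, f (K j + ∑ i, s i * g i j) =
      ∑ j : Fin B, (1 - 2 * (if K j + ∑ i, s i * g i j = 1 then 1 else 0) : ℤ) := by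
    apply Finset.sum_congr rfl
    intro j _
    simp only [f]
    split_ifs <;> norm_num
  rw [h2, Finset.sum_sub_distrib, ← Finset.mul_sum, Finset.sum_boole, Finset.sum_const,
    Finset.card_univ, Fintype.card_fin] at hs
  have h3 : (B : ℤ) = 2 * k := by exact_mod_cast hB
  rw [nsmul_eq_mul] at hs
  omega

/-! ### sums along lists -/

section Lists

variable {V R : Type*} [AddCommMonoid R]

/-- the sum over the consecutive pairs of `x :: l` -/
def wk (F : V → V → R) : V → List V → R
  | _, [] => 0
  | x, y :: l => F x y + wk F y l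

/-- the sum over the cyclically consecutive pairs of a list -/
def cyc (F : V → V → R) : List V → R
  | [] => 0
  | x :: l => wk F x (l ++ [x])

theorem wk_append (F : V → V → R) (x : V) (l l' : List V) :
    wk F x (l ++ l') = wk F x l + wk F (l.getLastD x) l' := by
  induction l generalizing x with
  | nil => simp [wk]
  | cons y l ih =>
    rw [List.cons_append]
    simp only [wk]
    rw [ih, add_assoc, List.getLastD_cons]

theorem wk_map {U : Type*} (F : V → V → R) (f : U → V) (x : U) (l : List U) :
    wk F (f x) (l.map f) = wk (fun u v => F (f u) (f v)) x l := by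
  induction l generalizing x with
  | nil => rfl
  | cons y l ih => simp only [List.map_cons, wk, ih]

theorem cyc_map {U : Type*} (F : V → V → R) (f : U → V) (l : List U) :
    cyc F (l.map f) = cyc (fun u v => F (f u) (f v)) l := by
  cases l with
  | nil => rfl
  | cons x l =>
    rw [List.map_cons]
    show wk F (f x) (l.map f ++ [f x]) = wk (fun u v => F (f u) (f v)) x (l ++ [x])
    have h := wk_map F f x (l ++ [x])
    rw [List.map_append, List.map_singleton] at h
    exact h

theorem wk_add (F G : V → V → R) (x : V) (l : List V) :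
    wk (fun u v => F u v + G u v) x l = wk F x l + wk G x l := by
  induction l generalizing x with
  | nil => simp [wk]
  | cons y l ih =>
    simp only [wk, ih]
    exact add_add_add_comm _ _ _ _

theorem cyc_add (F G : V → V → R) (l : List V) :
    cyc (fun u v => F u v + G u v) l = cyc F l + cyc G l := by
  cases l with
  | nil => simp [cyc]
  | cons x l => exact wk_add F G x _

theorem wk_sum (F : V → V → R) (d x : V) (l : List V) :
    wk F x l = ∑ i ∈ Finset.range l.length, F ((x :: l).getD i d) ((x :: l).getD (i + 1) d) := by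
  induction l generalizing x with
  | nil => simp [wk]
  | cons y l ih =>
    rw [List.length_cons, Finset.sum_range_succ']
    simp only [wk, ih y, List.getD_cons_succ, List.getD_cons_zero]
    exact add_comm _ _

end Lists

/-! ### the base case: six vertices -/

theorem split6 (t : Fin 6 → Fin 6 → Fin 6 → Fin 6 → ZMod 2) (h : ten t = 1) :
    ∃ a b c : Fin 6, ∃ L : List (Fin 6), a ≠ b ∧ a ≠ c ∧ b ≠ c ∧ L.Nodup ∧ 2 ≤ L.length ∧
      a ∉ L ∧ b ∉ L ∧ c ∉ L ∧ cyc (fun u v => t a b u v + t b c u v + t a c u v) L = 1 := by
  by_contra H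
  push Not at H
  have key : ∀ a b c x y z : Fin 6, [a, b, c, x, y, z].Nodup →
      t a b x y + t a b y z + t a b x z + t b c x y + t b c y z + t b c x z
        + t a c x y + t a c y z + t a c x z = 0 := by
    intro a b c x y z hn
    simp only [List.nodup_cons, List.mem_cons, List.not_mem_nil, or_false, not_or,
      not_false_iff, List.nodup_nil, and_true] at hn
    obtain ⟨⟨h1, h2, h3, h4, h5⟩, ⟨h6, h7, h8, h9⟩, ⟨h10, h11, h12⟩, ⟨h13, h14⟩, h15⟩ := hn
    have e1 := H a b c [x, z] h1 h2 h6 (by simp [h14]) (by simp) (by simp [h3, h5])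
      (by simp [h7, h9]) (by simp [h10, h12])
    have e2 := H a b c [x, y, z] h1 h2 h6 (by simp [h13, h14, h15]) (by simp)
      (by simp [h3, h4, h5]) (by simp [h7, h8, h9]) (by simp [h10, h11, h12])
    have z1 : ∀ q : ZMod 2, q ≠ 1 → q = 0 := by decide
    have e1' := z1 _ e1
    have e2' := z1 _ e2
    simp only [cyc, wk, List.cons_append, List.nil_append, add_zero] at e1' e2'
    linear_combination e1' + e2' - (t a b z x + t b c z x + t a c z x) * two0
  unfold ten at h
  have k1 := key 0 1 2 3 4 5 (by decide)
  have k2 := key 0 1 3 2 4 5 (by decide)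
  have k3 := key 0 1 4 2 3 5 (by decide)
  have k4 := key 0 1 5 2 3 4 (by decide)
  have k5 := key 0 2 3 1 4 5 (by decide)
  have k6 := key 0 2 4 1 3 5 (by decide)
  have k7 := key 0 2 5 1 3 4 (by decide)
  have k8 := key 0 3 4 1 2 5 (by decide)
  have k9 := key 0 3 5 1 2 4 (by decide)
  have k10 := key 0 4 5 1 2 3 (by decide)
  have : (0 : ZMod 2) = 1 := by
    linear_combination h - k1 - k2 - k3 - k4 - k5 - k6 - k7 - k8 - k9 - k10
  exact absurd this (by decide)

end Run7.h678.DG
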