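import Mathlib
import Pool.Agent.Run7.h678.DG.Comb

/-!
# The long cycle through all blocks
-/

namespace Run7.h678.DG

open Pool.Agent.Helper683.Lk Function

section Path

variable {V R : Type*} [AddCommMonoid R] (a b c : ℕ → V) (s : ℕ → ZMod 2)

/-- from `a i` to `c i`, possibly through `b i` -/
def body (i : ℕ) : List V := if s i = 1 then [b i, c i] else [c i]

/-- from `a 0` to `a n` -/
def pth : ℕ → List V
  | 0 => []
  | n + 1 => pth n ++ (body b c s n ++ [a (n + 1)])

/-- the vertices of the long cycle through the blocks `0, ..., n` -/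
def Zl (n : ℕ) : List V := a 0 :: (pth a b c s n ++ body b c s n)

theorem body_last (i : ℕ) (x : V) : (body b c s i).getLastD x = c i := by
  unfold body
  split_ifs <;> rfl

theorem pth_last (n : ℕ) : (pth a b c s n).getLastD (a 0) = a n := by
  cases n with
  | zero => rfl
  | succ n =>
    unfold pth
    simp

theorem wk_pth (F : V → V → R) (n : ℕ) : wk F (a 0) (pth a b c s n) =
    ∑ i ∈ Finset.range n, (wk F (a i) (body b c s i) + F (c i) (a (i + 1))) := by
  induction n with
  | zero => simp [pth, wk]
  | succ n ih =>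
    rw [Finset.sum_range_succ, ← ih]
    show wk F (a 0) (pth a b c s n ++ (body b c s n ++ [a (n + 1)])) = _
    rw [wk_append, wk_append, pth_last, body_last]
    simp [wk]

theorem cyc_Zl (F : V → V → R) (n : ℕ) : cyc F (Zl a b c s n) =
    ∑ i ∈ Finset.range (n + 1), wk F (a i) (body b c s i) +
      (∑ i ∈ Finset.range n, F (c i) (a (i + 1)) + F (c n) (a 0)) := by
  show wk F (a 0) ((pth a b c s n ++ body b c s n) ++ [a 0]) = _
  rw [List.append_assoc, wk_append, wk_append, pth_last, body_last, wk_pth, Finset.sum_range_succ,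
    Finset.sum_add_distrib]
  simp only [wk, add_zero]
  abel

theorem mem_body {i : ℕ} {x : V} (h : x ∈ body b c s i) : x = b i ∨ x = c i := by
  unfold body at h
  split_ifs at h <;> simp at h <;> tauto

theorem mem_pth {n : ℕ} {x : V} (h : x ∈ pth a b c s n) :
    (∃ i < n, x = b i ∨ x = c i) ∨ ∃ i ≤ n, 0 < i ∧ x = a i := by
  induction n with
  | zero => simp [pth] at h
  | succ n ih =>
    unfold pth at h
    rw [List.mem_append, List.mem_append, List.mem_singleton] at h
    rcases h with h | h | h
    · rcases ih h with ⟨i, hi, h'⟩ | ⟨i, hi, h'⟩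
      · exact Or.inl ⟨i, by omega, h'⟩
      · exact Or.inr ⟨i, by omega, h'⟩
    · exact Or.inl ⟨n, by omega, mem_body b c s h⟩
    · exact Or.inr ⟨n + 1, le_rfl, by omega, h⟩

theorem mem_Zl {n : ℕ} {x : V} (h : x ∈ Zl a b c s n) :
    ∃ i ≤ n, x = a i ∨ x = b i ∨ x = c i := by
  unfold Zl at h
  rw [List.mem_cons, List.mem_append] at h
  rcases h with h | h | h
  · exact ⟨0, by omega, Or.inl h⟩
  · rcases mem_pth a b c s h with ⟨i, hi, h'⟩ | ⟨i, hi, -, h'⟩
    · exact ⟨i, hi.le, Or.inr h'⟩
    · exact ⟨i, hi, Or.inl h'⟩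
  · exact ⟨n, le_rfl, Or.inr (mem_body b c s h)⟩

theorem nodup_Zl {n : ℕ} (hbc : ∀ i ≤ n, b i ≠ c i)
    (hab : ∀ i ≤ n, ∀ j ≤ n, a i ≠ b j ∧ a i ≠ c j)
    (ha : ∀ i ≤ n, ∀ j ≤ n, i ≠ j → a i ≠ a j)
    (hb : ∀ i ≤ n, ∀ j ≤ n, i ≠ j → b i ≠ b j ∧ b i ≠ c j ∧ c i ≠ c j) : (Zl a b c s n).Nodup := by
  have hbody : ∀ i ≤ n, (body b c s i).Nodup := by
    intro i hi
    unfold body
    split_ifs <;> simp [hbc i hi]
  have hpth : ∀ m ≤ n, (a 0 :: pth a b c s m).Nodup := by
    intro m
    induction m with
    | zero => intro _; simp [pth]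
    | succ m ih =>
      intro hm
      show ((a 0 :: pth a b c s m) ++ (body b c s m ++ [a (m + 1)])).Nodup
      rw [List.nodup_append']
      refine ⟨ih (by omega), ?_, ?_⟩
      · rw [List.nodup_append']
        refine ⟨hbody m (by omega), by simp, ?_⟩
        intro x hx hx'
        rw [List.mem_singleton] at hx'
        subst hx'
        rcases mem_body b c s hx with h | h
        · exact (hab (m + 1) hm m (by omega)).1 h
        · exact (hab (m + 1) hm m (by omega)).2 h
      · intro x hx hx'
        rw [List.mem_append, List.mem_singleton] at hx'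
        rw [List.mem_cons] at hx
        rcases hx with rfl | hx
        · rcases hx' with h | h
          · rcases mem_body b c s h with h | h
            · exact (hab 0 (by omega) m (by omega)).1 h
            · exact (hab 0 (by omega) m (by omega)).2 h
          · exact ha 0 (by omega) (m + 1) hm (by omega) h
        · rcases mem_pth a b c s hx with ⟨i, hi, h | h⟩ | ⟨i, hi, hi0, h⟩ <;> subst h
          · rcases hx' with h | h
            · rcases mem_body b c s h with h | h
              · exact (hb i (by omega) m (by omega) (by omega)).1 h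
              · exact (hb i (by omega) m (by omega) (by omega)).2.1 h
            · exact (hab (m + 1) hm i (by omega)).1 h.symm
          · rcases hx' with h | h
            · rcases mem_body b c s h with h | h
              · exact (hb m (by omega) i (by omega) (by omega)).2.1 h.symm
              · exact (hb i (by omega) m (by omega) (by omega)).2.2 h
            · exact (hab (m + 1) hm i (by omega)).2 h.symm
          · rcases hx' with h | h
            · rcases mem_body b c s h with h | h
              · exact (hab i (by omega) m (by omega)).1 h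
              · exact (hab i (by omega) m (by omega)).2 h
            · exact ha i (by omega) (m + 1) hm (by omega) h
  show ((a 0 :: pth a b c s n) ++ body b c s n).Nodup
  rw [List.nodup_append']
  refine ⟨hpth n le_rfl, hbody n le_rfl, ?_⟩
  intro x hx hx'
  rw [List.mem_cons] at hx
  rcases hx with rfl | hx
  · rcases mem_body b c s hx' with h | h
    · exact (hab 0 (by omega) n le_rfl).1 h
    · exact (hab 0 (by omega) n le_rfl).2 h
  · rcases mem_pth a b c s hx with ⟨i, hi, h | h⟩ | ⟨i, hi, hi0, h⟩ <;> subst h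
    · rcases mem_body b c s hx' with h | h
      · exact (hb i (by omega) n le_rfl (by omega)).1 h
      · exact (hb i (by omega) n le_rfl (by omega)).2.1 h
    · rcases mem_body b c s hx' with h | h
      · exact (hb n le_rfl i (by omega) (by omega)).2.1 h.symm
      · exact (hb i (by omega) n le_rfl (by omega)).2.2 h
    · rcases mem_body b c s hx' with h | h
      · exact (hab i hi n le_rfl).1 h
      · exact (hab i hi n le_rfl).2 h

theorem two_le_Zl (n : ℕ) : 2 ≤ (Zl a b c s n).length := by
  have : 1 ≤ (body b c s n).length := by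
    unfold body
    split_ifs <;> simp
  unfold Zl
  rw [List.length_cons, List.length_append]
  omega

end Path

theorem wk_body {V : Type*} (F : V → V → ZMod 2) (a b c : ℕ → V) (s : ℕ → ZMod 2) (i : ℕ) :
    wk F (a i) (body b c s i) =
      F (a i) (c i) + s i * (F (a i) (b i) + F (b i) (c i) + F (a i) (c i)) := by
  have h01 : ∀ q : ZMod 2, q = 1 ∨ q = 0 := by decide
  unfold body
  rcases h01 (s i) with h | h
  · rw [if_pos h, h]
    simp only [wk, add_zero, one_mul]
    linear_combination -F (a i) (c i) * two0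
  · rw [if_neg (by rw [h]; decide), h]
    simp only [wk, add_zero, zero_mul]

/-- In a family of `2 k` disjoint blocks of six vertices in each of which the ten linking numbers
of pairs of complementary triangles have an odd sum, there are a cycle `Z` and `k` further cycles,
all disjoint, whose linking numbers with `Z` are odd. -/
theorem star {V : Type*} (t : V → V → V → V → ZMod 2) {k : ℕ} (hk : 0 < k) (w : ℕ → Fin 6 → V)
    (hinj : ∀ i, Injective (w i)) (hw : ∀ i < 2 * k, ∀ j < 2 * k, i ≠ j → ∀ x y, w i x ≠ w j y)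
    (hten : ∀ i, ten (fun a b x y => t (w i a) (w i b) (w i x) (w i y)) = 1) :
    ∃ (Z : List V) (L : Fin k → List V), Z.Nodup ∧ 2 ≤ Z.length ∧
      (∀ j, (L j).Nodup ∧ 2 ≤ (L j).length) ∧ (∀ j, Z.Disjoint (L j)) ∧
      (∀ i j, i ≠ j → (L i).Disjoint (L j)) ∧
      ∀ j, cyc (fun x y => cyc (fun u v => t x y u v) (L j)) Z = 1 := by
  classical
  choose α β γ M h1 h2 h3 h4 h5 h6 h7 h8 h9 using fun i => split6 _ (hten i)
  let a : ℕ → V := fun i => w i (α i)
  let b : ℕ → V := fun i => w i (β i)
  let c : ℕ → V := fun i => w i (γ i)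
  let L : ℕ → List V := fun i => (M i).map (w i)
  let F : ℕ → V → V → ZMod 2 := fun j x y => cyc (fun u v => t x y u v) (L j)
  let g : ℕ → ℕ → ZMod 2 := fun i j => F j (a i) (b i) + F j (b i) (c i) + F j (a i) (c i)
  have hg : ∀ j, g j j = 1 := by
    intro j
    have := h9 j
    rw [cyc_add, cyc_add] at this
    simp only [g, F, L, cyc_map]
    exact this
  obtain ⟨n, hn⟩ : ∃ n, 2 * k = n + 1 := ⟨2 * k - 1, by omega⟩
  let K : ℕ → ZMod 2 := fun j => ∑ i ∈ Finset.range (n + 1), F j (a i) (c i) +
      (∑ i ∈ Finset.range n, F j (c i) (a (i + 1)) + F j (c n) (a 0))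
  obtain ⟨s', hs'⟩ := half (B := n + 1) (k := k) hn.symm (fun j => K j) (fun i j => g i j)
    (fun j => hg j)
  let s : ℕ → ZMod 2 := fun i => if h : i < n + 1 then s' ⟨i, h⟩ else 0
  have hval : ∀ j, cyc (F j) (Zl a b c s n) = K j + ∑ i : Fin (n + 1), s' i * g i j := by
    intro j
    rw [cyc_Zl]
    simp only [wk_body]
    rw [Finset.sum_add_distrib]
    have e : ∑ i : Fin (n + 1), s' i * g i j = ∑ i ∈ Finset.range (n + 1), s i *
        (F j (a i) (b i) + F j (b i) (c i) + F j (a i) (c i)) := by
      rw [← Fin.sum_univ_eq_sum_range (fun i => s i *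
        (F j (a i) (b i) + F j (b i) (c i) + F j (a i) (c i)))]
      apply Finset.sum_congr rfl
      intro i _
      simp only [s, g]
      rw [dif_pos i.2]
    rw [e]
    simp only [K]
    ring
  set J := Finset.univ.filter fun j : Fin (n + 1) => K j + ∑ i : Fin (n + 1), s' i * g i j = 1
  obtain ⟨φ⟩ : Nonempty (Fin k ↪ J) := by
    apply Function.Embedding.nonempty_of_card_le
    rw [Fintype.card_fin, Fintype.card_coe]
    exact hs'
  have hφ : ∀ j, ((φ j : Fin (n + 1)) : ℕ) ≤ n := fun j => by omega
  have hw' : ∀ i ≤ n, ∀ j ≤ n, i ≠ j → ∀ x y, w i x ≠ w j y := fun i hi j hj =>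
    hw i (by omega) j (by omega)
  have hmemL : ∀ {i : ℕ} {x : V}, x ∈ L i → ∃ y ∈ M i, x = w i y := by
    intro i x hx
    obtain ⟨y, hy, rfl⟩ := List.mem_map.mp hx
    exact ⟨y, hy, rfl⟩
  refine ⟨Zl a b c s n, fun j => L (φ j : Fin (n + 1)), ?_, two_le_Zl a b c s n, ?_, ?_, ?_, ?_⟩
  · apply nodup_Zl
    · intro i _ h
      exact h3 i (hinj i h)
    · intro i hi j hj
      by_cases hij : i = j
      · subst hij
        exact ⟨fun h => h1 i (hinj i h), fun h => h2 i (hinj i h)⟩
      · exact ⟨hw' i hi j hj hij _ _, hw' i hi j hj hij _ _⟩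
    · intro i hi j hj hij
      exact hw' i hi j hj hij _ _
    · intro i hi j hj hij
      exact ⟨hw' i hi j hj hij _ _, hw' i hi j hj hij _ _, hw' i hi j hj hij _ _⟩
  · intro j
    refine ⟨(h4 _).map (hinj _), ?_⟩
    simp only [L, List.length_map]
    exact h5 _
  · intro j x hx hx'
    obtain ⟨y, hy, rfl⟩ := hmemL hx'
    obtain ⟨i, hi, h⟩ := mem_Zl a b c s hx
    by_cases hij : i = (φ j : Fin (n + 1))
    · subst hij
      rcases h with h | h | h
      · exact h6 _ ((hinj _ h) ▸ hy)
      · exact h7 _ ((hinj _ h) ▸ hy)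
      · exact h8 _ ((hinj _ h) ▸ hy)
    · rcases h with h | h | h <;> exact hw' i hi _ (hφ j) hij _ _ h.symm
  · intro i j hij x hx hx'
    obtain ⟨y, hy, rfl⟩ := hmemL hx
    obtain ⟨y', hy', h⟩ := hmemL hx'
    refine hw' _ (hφ i) _ (hφ j) ?_ _ _ h
    intro h'
    exact hij (φ.injective (Subtype.ext (Fin.ext h')))
  · intro j
    show cyc (F ((φ j : Fin (n + 1)) : ℕ)) (Zl a b c s n) = 1
    rw [hval]
    exact (Finset.mem_filter.mp (φ j).2).2

end Run7.h678.DG
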