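import Mathlib
import Pool.Agent.Run7.h678.DG.Emb
import Pool.Agent.Run7.h678.DG.Star

/-!
# Complete symmetric digraphs are intrinsically `n`-linked
-/

namespace Run7.h678.DG

open Pool.Agent.Helper683.Lk Function Set

variable {N : ℕ}

/-- the vertices of a cyclic list, indexed by the natural numbers -/
def vt (l : List (Fin N)) (h : 2 ≤ l.length) (i : ℕ) : Fin N :=
  l[i % l.length]'(Nat.mod_lt _ (by omega))

theorem vt_ne {l : List (Fin N)} (h : 2 ≤ l.length) (hn : l.Nodup) (i : ℕ) :
    vt l h i ≠ vt l h (i + 1) := by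
  intro he
  unfold vt at he
  have h1 := (hn.getElem_inj_iff).mp he
  have hd := Nat.div_add_mod i l.length
  have hd' := Nat.div_add_mod (i + 1) l.length
  have h2 := Nat.mod_lt i (show l.length > 0 by omega)
  rw [h1] at hd
  have h3 : l.length * ((i + 1) / l.length) = l.length * (i / l.length) + 1 := by omega
  have h4 : (l.length : ℤ) * (((i + 1) / l.length : ℕ) - (i / l.length : ℕ)) = 1 := by
    have : ((l.length * ((i + 1) / l.length) : ℕ) : ℤ) = (l.length * (i / l.length) + 1 : ℕ) := by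
      rw [h3]
    push_cast at this ⊢
    linarith
  have h5 := Int.eq_one_or_neg_one_of_mul_eq_one h4
  omega

/-- the directed cycle through the vertices of a list -/
def cycleOf (l : List (Fin N)) (h : 2 ≤ l.length) (hn : l.Nodup) :
    DirectedCycle (completeSymmetric N) where
  m := l.length - 1
  edge i := ⟨(vt l h i, vt l h (i + 1)), vt_ne h hn i⟩
  tgt_edge i := by
    show vt l h (i + 1) = vt l h ((i + 1 : Fin (l.length - 1 + 1)) : ℕ)
    have e : l.length - 1 + 1 = l.length := by omega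
    unfold vt
    congr 1
    rw [Fin.val_add]
    have e1 : ((1 : Fin (l.length - 1 + 1)) : ℕ) = 1 := by
      rw [Fin.val_one']
      exact Nat.mod_eq_of_lt (by omega)
    rw [e1]
    have e3 : (i.val + 1) % (l.length - 1 + 1) = (i.val + 1) % l.length := congrArg _ e
    rw [e3, Nat.mod_mod]
  src_injective := by
    intro i j hij
    have hij' : vt l h i = vt l h j := hij
    unfold vt at hij'
    have h1 := (hn.getElem_inj_iff).mp hij'
    have hi := i.2
    have hj := j.2
    rw [Nat.mod_eq_of_lt (by omega), Nat.mod_eq_of_lt (by omega)] at h1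
    exact Fin.ext h1

theorem cycleOf_m (l : List (Fin N)) (h : 2 ≤ l.length) (hn : l.Nodup) :
    (cycleOf l h hn).m + 1 = l.length := by
  show l.length - 1 + 1 = l.length
  omega

theorem cycleOf_ed (l : List (Fin N)) (h : 2 ≤ l.length) (hn : l.Nodup) {i : ℕ}
    (hi : i < l.length) : (cycleOf l h hn).ed i =
      (⟨(vt l h i, vt l h (i + 1)), vt_ne h hn i⟩ : (completeSymmetric N).E) := by
  have e : (Fin.ofNat ((cycleOf l h hn).m + 1) i : ℕ) = i := by
    show i % (l.length - 1 + 1) = i
    rw [Nat.mod_eq_of_lt (by omega)]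
  show (⟨(vt l h (Fin.ofNat ((cycleOf l h hn).m + 1) i : ℕ),
    vt l h ((Fin.ofNat ((cycleOf l h hn).m + 1) i : ℕ) + 1)), _⟩ : (completeSymmetric N).E) = _
  simp only [e]

theorem cyc_eq_sum {R : Type*} [AddCommMonoid R] (F : Fin N → Fin N → R) (l : List (Fin N))
    (h : 2 ≤ l.length) :
    cyc F l = ∑ i ∈ Finset.range l.length, F (vt l h i) (vt l h (i + 1)) := by
  cases l with
  | nil => simp at h
  | cons x l =>
    show wk F x (l ++ [x]) = _
    rw [wk_sum F x]
    have e : (l ++ [x]).length = (x :: l).length := by simp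
    rw [e]
    have hv : ∀ i ≤ (x :: l).length, (x :: (l ++ [x])).getD i x = vt (x :: l) h i := by
      intro i hi
      unfold vt
      rcases hi.lt_or_eq with h' | h'
      · simp only [Nat.mod_eq_of_lt h']
        rw [← List.cons_append, List.getD_append _ _ _ _ h', List.getD_eq_getElem _ _ h']
      · subst h'
        simp only [Nat.mod_self]
        rw [← List.cons_append, List.getD_append_right _ _ _ _ le_rfl, Nat.sub_self]
        simp
    apply Finset.sum_congr rfl
    intro i hi
    rw [Finset.mem_range] at hi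
    rw [hv i hi.le, hv (i + 1) hi]

theorem disjoint_cycleOf {l l' : List (Fin N)} (h : 2 ≤ l.length) (hn : l.Nodup)
    (h' : 2 ≤ l'.length) (hn' : l'.Nodup) (hd : l.Disjoint l') :
    VertexDisjoint (cycleOf l h hn) (cycleOf l' h' hn') := by
  intro i j he
  have he' : vt l h i = vt l' h' j := he
  refine hd (a := vt l h i) (List.getElem_mem _) ?_
  rw [he']
  exact List.getElem_mem _

theorem odd_of_cyc {Φ : QEmb (completeSymmetric N)} {n : ℕ} (S : Scale Φ n)
    {l l' : List (Fin N)} (h : 2 ≤ l.length) (hn : l.Nodup) (h' : 2 ≤ l'.length) (hn' : l'.Nodup)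
    (hc : cyc (fun x y => cyc (fun u v => S.t x y u v) l') l = 1) :
    ((∑ i ∈ Finset.range ((cycleOf l h hn).m + 1), ∑ j ∈ Finset.range ((cycleOf l' h' hn').m + 1),
      S.T ((cycleOf l h hn).ed i) ((cycleOf l' h' hn').ed j) : ℤ) : ZMod 2) = 1 := by
  rw [← hc, cyc_eq_sum _ l h, cycleOf_m, cycleOf_m]
  push_cast
  apply Finset.sum_congr rfl
  intro i hi
  rw [cyc_eq_sum _ l' h']
  apply Finset.sum_congr rfl
  intro j hj
  rw [Finset.mem_range] at hi hj
  rw [cycleOf_ed l h hn hi, cycleOf_ed l' h' hn' hj, S.t_eq (vt_ne h hn i) (vt_ne h' hn' j)]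

theorem main_q {k : ℕ} (hk : 0 < k) (hN : N = 12 * k) (Φ : QEmb (completeSymmetric N)) :
    ∃ C : Fin (k + 1) → DirectedCycle (completeSymmetric N),
      (∀ i j, i ≠ j → VertexDisjoint (C i) (C j)) ∧ Nonsplit fun i => (C i).qimage Φ := by
  have hN0 : 0 < N := by omega
  obtain ⟨S⟩ := exists_scale Φ hN0
  -- the blocks
  let w : ℕ → Fin 6 → Fin N := fun i x => ⟨6 * (i % (2 * k)) + x, by
    have := Nat.mod_lt i (show 2 * k > 0 by omega)
    omega⟩
  have hinj : ∀ i, Injective (w i) := by
    intro i x y hxy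
    have := congrArg Fin.val hxy
    simp only [w] at this
    exact Fin.ext (by omega)
  have hw : ∀ i < 2 * k, ∀ j < 2 * k, i ≠ j → ∀ x y, w i x ≠ w j y := by
    intro i hi j hj hij x y hxy
    have := congrArg Fin.val hxy
    simp only [w] at this
    rw [Nat.mod_eq_of_lt hi, Nat.mod_eq_of_lt hj] at this
    omega
  obtain ⟨Z, L, h1, h2, h3, h4, h5, h6⟩ := star S.t hk w hinj hw (fun i => S.ten_t (w i) (hinj i))
  let C0 := cycleOf Z h2 h1
  let Cs : Fin k → DirectedCycle (completeSymmetric N) := fun j => cycleOf (L j) (h3 j).2 (h3 j).1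
  have hlen : ∀ l : List (Fin N), l.Nodup → l.length ≤ N := by
    intro l hl
    have := hl.length_le_card
    rwa [Fintype.card_fin] at this
  have hd0 : ∀ j, VertexDisjoint C0 (Cs j) := fun j => disjoint_cycleOf _ _ _ _ (h4 j)
  have hds : ∀ i j, i ≠ j → VertexDisjoint (Cs i) (Cs j) := fun i j hij =>
    disjoint_cycleOf _ _ _ _ (h5 i j hij)
  refine ⟨Fin.cons C0 Cs, ?_, ?_⟩
  · intro i j
    refine Fin.cases ?_ (fun i => ?_) i <;> refine Fin.cases ?_ (fun j => ?_) j
    · intro h; exact absurd rfl h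
    · intro _; exact hd0 j
    · intro _ x y h; exact hd0 i y x h.symm
    · intro h; exact hds i j (fun h' => h (by rw [h']))
  · intro σ hσ hσi hdis
    have key : ∀ j, ∀ x ∈ C0.qimage Φ, ∀ y ∈ (Cs j).qimage Φ, JoinedIn (range σ)ᶜ x y := fun j =>
      joined_of_odd S (hd0 j) ((cycleOf_m Z h2 h1).trans_le (hlen Z h1))
        ((cycleOf_m (L j) (h3 j).2 (h3 j).1).trans_le (hlen _ (h3 j).1))
        (odd_of_cyc S h2 h1 (h3 j).2 (h3 j).1 (h6 j)) hσ hσi (hdis 0) (hdis j.succ)
    -- a point on the first component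
    have hx0 : Φ.arc (C0.edge 0) 0 ∈ C0.qimage Φ := mem_iUnion.mpr ⟨0, ⟨0, rfl⟩⟩
    have hy : ∀ j, Φ.arc ((Cs j).edge 0) 0 ∈ (Cs j).qimage Φ := fun j => mem_iUnion.mpr ⟨0, ⟨0, rfl⟩⟩
    have all : ∀ i, ∀ x ∈ ((Fin.cons C0 Cs : Fin (k + 1) → DirectedCycle (completeSymmetric N)) i).qimage Φ,
        JoinedIn (range σ)ᶜ (Φ.arc (C0.edge 0) 0) x := by
      intro i
      refine Fin.cases ?_ (fun j => ?_) i
      · intro x hx
        have j0 : Fin k := ⟨0, hk⟩
        exact (key j0 _ hx0 _ (hy j0)).trans (key j0 x hx _ (hy j0)).symm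
      · intro x hx
        exact key j _ hx0 _ hx
    intro i j x hx y hy
    exact (all i x hx).symm.trans (all j y hy)

/-- The complete symmetric digraph on `12 (n - 1)` vertices is intrinsically `n`-linked. -/
theorem main {n : ℕ} (hn : 2 ≤ n) : IntrinsicallyLinked n (completeSymmetric (12 * (n - 1))) := by
  obtain ⟨k, rfl⟩ : ∃ k, n = k + 1 := ⟨n - 1, by omega⟩
  rw [Nat.add_sub_cancel]
  intro Φ
  exact main_q (by omega) rfl Φ.toQ

end Run7.h678.DG
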