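import Mathlib
import Pool.Agent.Run7.h678.DG.Main

/-!
# Intrinsically `n`-linked tournaments
-/

namespace Run7.h678.DG

open Function Set

/-- the edges of the split tournament -/
def SRel (N : ℕ) (p q : Fin N × Bool) : Prop :=
  (p.2 = q.2 ∧ p.1 < q.1) ∨ (p.2 = false ∧ q.2 = true ∧ p.1 = q.1) ∨
    (p.2 = true ∧ q.2 = false ∧ p.1 ≠ q.1)

theorem SRel.ne {N : ℕ} {p q : Fin N × Bool} (h : SRel N p q) : p ≠ q := by
  rintro rfl
  rcases h with ⟨-, h⟩ | ⟨h1, h2, -⟩ | ⟨h1, h2, -⟩
  · exact lt_irrefl _ h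
  · rw [h1] at h2; exact absurd h2 (by decide)
  · rw [h1] at h2; exact absurd h2 (by decide)

theorem SRel.asymm {N : ℕ} {p q : Fin N × Bool} (h : SRel N p q) : ¬ SRel N q p := by
  intro h'
  obtain ⟨x, i⟩ := p
  obtain ⟨y, j⟩ := q
  unfold SRel at h h'
  simp only at h h'
  rcases h with ⟨h0, h⟩ | ⟨h1, h2, h3⟩ | ⟨h1, h2, h3⟩ <;>
    rcases h' with ⟨h0', h'⟩ | ⟨h1', h2', h3'⟩ | ⟨h1', h2', h3'⟩ <;> subst_vars <;>
    first
    | exact absurd h (lt_asymm h')
    | exact lt_irrefl _ h
    | exact lt_irrefl _ h'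
    | contradiction

theorem SRel.total {N : ℕ} {p q : Fin N × Bool} (h : p ≠ q) : SRel N p q ∨ SRel N q p := by
  obtain ⟨x, i⟩ := p
  obtain ⟨y, j⟩ := q
  unfold SRel
  simp only
  cases i <;> cases j
  · have : x ≠ y := fun e => h (by rw [e])
    rcases lt_or_gt_of_ne this with h' | h'
    · exact Or.inl (Or.inl ⟨rfl, h'⟩)
    · exact Or.inr (Or.inl ⟨rfl, h'⟩)
  · by_cases e : x = y
    · exact Or.inl (Or.inr (Or.inl ⟨rfl, rfl, e⟩))
    · exact Or.inr (Or.inr (Or.inr ⟨rfl, rfl, fun e' => e e'.symm⟩))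
  · by_cases e : x = y
    · exact Or.inr (Or.inr (Or.inl ⟨rfl, rfl, e.symm⟩))
    · exact Or.inl (Or.inr (Or.inr ⟨rfl, rfl, e⟩))
  · have : x ≠ y := fun e => h (by rw [e])
    rcases lt_or_gt_of_ne this with h' | h'
    · exact Or.inl (Or.inl ⟨rfl, h'⟩)
    · exact Or.inr (Or.inl ⟨rfl, h'⟩)

/-- The tournament obtained from the complete symmetric digraph on `N` vertices by splitting every
vertex `x` into an edge from `(x, false)` (which receives the edges into `x`) to `(x, true)` (from
which the edges out of `x` start), and adding edges from `(x, i)` to `(y, i)` for `x < y`. -/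
def splitTournament (N : ℕ) : DirectedGraph where
  V := Fin N × Bool
  E := {p : (Fin N × Bool) × (Fin N × Bool) // SRel N p.1 p.2}
  finite_V := inferInstance
  finite_E := inferInstance
  src p := p.1.1
  tgt p := p.1.2
  src_ne_tgt p := p.2.ne

theorem splitTournament_isTournament (N : ℕ) : IsTournament (splitTournament N) := by
  intro x y hxy
  rcases SRel.total hxy with h | h
  · refine ⟨⟨(x, y), h⟩, Or.inl ⟨rfl, rfl⟩, ?_⟩
    rintro ⟨⟨u, v⟩, h'⟩ (⟨h1, h2⟩ | ⟨h1, h2⟩)
    · have h1' : u = x := h1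
      have h2' : v = y := h2
      subst h1' h2'
      rfl
    · have h1' : u = y := h1
      have h2' : v = x := h2
      subst h1' h2'
      exact absurd h' h.asymm
  · refine ⟨⟨(y, x), h⟩, Or.inr ⟨rfl, rfl⟩, ?_⟩
    rintro ⟨⟨u, v⟩, h'⟩ (⟨h1, h2⟩ | ⟨h1, h2⟩)
    · have h1' : u = x := h1
      have h2' : v = y := h2
      subst h1' h2'
      exact absurd h' h.asymm
    · have h1' : u = y := h1
      have h2' : v = x := h2
      subst h1' h2'
      rfl

theorem card_splitTournament (N : ℕ) : Nat.card (splitTournament N).V = 2 * N := by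
  show Nat.card (Fin N × Bool) = 2 * N
  rw [Nat.card_prod, Nat.card_eq_fintype_card, Nat.card_eq_fintype_card, Fintype.card_fin,
    Fintype.card_bool, mul_comm]

variable {N : ℕ}

/-- the edge from `(x, true)` to `(y, false)` -/
def oe {x y : Fin N} (h : x ≠ y) : (splitTournament N).E :=
  ⟨((x, true), (y, false)), Or.inr (Or.inr ⟨rfl, rfl, h⟩)⟩

/-- the edge from `(x, false)` to `(x, true)` -/
def ie (x : Fin N) : (splitTournament N).E :=
  ⟨((x, false), (x, true)), Or.inr (Or.inl ⟨rfl, rfl, rfl⟩)⟩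

theorem tf {x y : Fin N} : ((x, true) : Fin N × Bool) ≠ (y, false) := fun h =>
  absurd (Prod.mk.inj h).2 (by decide)

theorem apart_oe_oe {x y u v : Fin N} (h : x ≠ y) (h' : u ≠ v) (h1 : x ≠ u) (h2 : y ≠ v) :
    Apart (splitTournament N) (oe h) (oe h') := by
  refine ⟨?_, ?_, ?_, ?_⟩ <;> intro e
  · exact h1 (congrArg Prod.fst e)
  · exact tf e
  · exact tf e.symm
  · exact h2 (congrArg Prod.fst e)

theorem apart_oe_ie {x y v : Fin N} (h : x ≠ y) (h1 : x ≠ v) (h2 : y ≠ v) :
    Apart (splitTournament N) (oe h) (ie v) := by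
  refine ⟨?_, ?_, ?_, ?_⟩ <;> intro e
  · exact h1 (congrArg Prod.fst e)
  · exact h1 (congrArg Prod.fst e)
  · exact h2 (congrArg Prod.fst e)
  · exact h2 (congrArg Prod.fst e)

theorem apart_ie_oe {x y v : Fin N} (h : x ≠ y) (h1 : v ≠ x) (h2 : v ≠ y) :
    Apart (splitTournament N) (ie v) (oe h) := by
  refine ⟨?_, ?_, ?_, ?_⟩ <;> intro e
  · exact h1 (congrArg Prod.fst e)
  · exact h2 (congrArg Prod.fst e)
  · exact h1 (congrArg Prod.fst e)
  · exact h2 (congrArg Prod.fst e)

theorem apart_ie_ie {x y : Fin N} (h : x ≠ y) : Apart (splitTournament N) (ie x) (ie y) := by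
  refine ⟨?_, ?_, ?_, ?_⟩ <;> intro e <;> exact h (congrArg Prod.fst e)

/-- the weak embedding of the complete symmetric digraph coming from a spatial embedding of the
split tournament -/
noncomputable def unsplit (Ψ : SpatialEmbedding (splitTournament N)) : QEmb (completeSymmetric N) where
  pos x := Ψ.pos (x, true)
  arc e := (Ψ.arc (oe e.2)).trans (Ψ.arc (ie e.1.2))
  apart e f h s t he := by
    obtain ⟨h1, h2, h3, h4⟩ := h
    have h1' : e.1.1 ≠ f.1.1 := h1
    have h2' : e.1.1 ≠ f.1.2 := h2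
    have h3' : e.1.2 ≠ f.1.1 := h3
    have h4' : e.1.2 ≠ f.1.2 := h4
    have m1 := (Path.trans_range (Ψ.arc (oe e.2)) (Ψ.arc (ie e.1.2))).subset ⟨s, rfl⟩
    have m2 := (Path.trans_range (Ψ.arc (oe f.2)) (Ψ.arc (ie f.1.2))).subset ⟨t, rfl⟩
    rcases m1 with ⟨s', hs⟩ | ⟨s', hs⟩ <;> rcases m2 with ⟨t', ht⟩ | ⟨t', ht⟩
    · exact arcs_ne Ψ (apart_oe_oe e.2 f.2 h1' h4') s' t' (hs.trans (he.trans ht.symm))
    · exact arcs_ne Ψ (apart_oe_ie e.2 h2' h4') s' t' (hs.trans (he.trans ht.symm))
    · exact arcs_ne Ψ (apart_ie_oe f.2 h3' h4') s' t' (hs.trans (he.trans ht.symm))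
    · exact arcs_ne Ψ (apart_ie_ie h4') s' t' (hs.trans (he.trans ht.symm))

/-- the edges of the lifted cycle -/
def liftEd (C : DirectedCycle (completeSymmetric N)) (j : ℕ) : (splitTournament N).E :=
  if j % 2 = 0 then oe (C.ed (j / 2)).2 else ie (C.ed (j / 2)).1.2

theorem liftEd_even (C : DirectedCycle (completeSymmetric N)) (i : ℕ) :
    liftEd C (2 * i) = oe (C.ed i).2 := by
  have h1 : 2 * i % 2 = 0 := by omega
  have h2 : 2 * i / 2 = i := by omega
  unfold liftEd
  rw [if_pos h1]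
  simp only [h2]

theorem liftEd_odd (C : DirectedCycle (completeSymmetric N)) (i : ℕ) :
    liftEd C (2 * i + 1) = ie (C.ed i).1.2 := by
  have h1 : ¬ (2 * i + 1) % 2 = 0 := by omega
  have h2 : (2 * i + 1) / 2 = i := by omega
  unfold liftEd
  rw [if_neg h1]
  simp only [h2]

theorem liftEd_tgt (C : DirectedCycle (completeSymmetric N)) (j : ℕ) :
    (splitTournament N).tgt (liftEd C j) = (splitTournament N).src (liftEd C (j + 1)) := by
  rcases Nat.even_or_odd' j with ⟨i, rfl | rfl⟩
  · rw [liftEd_even, liftEd_odd]; rfl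
  · rw [liftEd_odd, show 2 * i + 1 + 1 = 2 * (i + 1) by ring, liftEd_even]
    have h := C.ed_tgt i
    have h' : (C.ed i).1.2 = (C.ed (i + 1)).1.1 := h
    show ((C.ed i).1.2, true) = ((C.ed (i + 1)).1.1, true)
    rw [h']

theorem ed_add (C : DirectedCycle (completeSymmetric N)) (i : ℕ) :
    C.ed (i + (C.m + 1)) = C.ed i := by
  unfold DirectedCycle.ed
  congr 1
  apply Fin.ext
  simp

theorem liftEd_add (C : DirectedCycle (completeSymmetric N)) (j : ℕ) :
    liftEd C (j + 2 * (C.m + 1)) = liftEd C j := by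
  rcases Nat.even_or_odd' j with ⟨i, rfl | rfl⟩
  · rw [← mul_add, liftEd_even, liftEd_even, ed_add]
  · rw [show 2 * i + 1 + 2 * (C.m + 1) = 2 * (i + (C.m + 1)) + 1 by ring, liftEd_odd, liftEd_odd,
      ed_add]

theorem src_ed_inj (C : DirectedCycle (completeSymmetric N)) {i j : ℕ} (hi : i < C.m + 1)
    (hj : j < C.m + 1) (h : (C.ed i).1.1 = (C.ed j).1.1) : i = j := by
  have h1 := C.src_injective (a₁ := Fin.ofNat (C.m + 1) i) (a₂ := Fin.ofNat (C.m + 1) j) h
  have h2 := congrArg Fin.val h1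
  simp only [Fin.ofNat] at h2
  rwa [Nat.mod_eq_of_lt hi, Nat.mod_eq_of_lt hj] at h2

theorem tgt_ed_inj (C : DirectedCycle (completeSymmetric N)) {i j : ℕ} (hi : i < C.m + 1)
    (hj : j < C.m + 1) (h : (C.ed i).1.2 = (C.ed j).1.2) : i = j := by
  have e : ∀ i, (C.ed i).1.2 = (C.ed (i + 1)).1.1 := fun i => C.ed_tgt i
  rw [e, e] at h
  have h0 : ∀ i, i < C.m + 1 → C.ed (i + 1) = C.ed (if i = C.m then 0 else i + 1) := by
    intro i _
    split_ifs with h'
    · rw [h', C.ed_last]
    · rfl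
  rw [h0 i hi, h0 j hj] at h
  have := src_ed_inj C (by split_ifs <;> omega) (by split_ifs <;> omega) h
  split_ifs at this <;> omega

/-- the lift of a cycle to the split tournament -/
def lift (C : DirectedCycle (completeSymmetric N)) : DirectedCycle (splitTournament N) where
  m := 2 * C.m + 1
  edge j := liftEd C j
  tgt_edge j := by
    rw [liftEd_tgt]
    have e : 2 * C.m + 1 + 1 = 2 * (C.m + 1) := by ring
    have hv : ((j + 1 : Fin (2 * C.m + 1 + 1)) : ℕ) = (j.val + 1) % (2 * C.m + 1 + 1) := by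
      rw [Fin.val_add, Fin.val_one']
      simp
    have hj := j.2
    rcases Nat.lt_or_ge (j.val + 1) (2 * C.m + 1 + 1) with h | h
    · rw [hv, Nat.mod_eq_of_lt h]
    · have h' : j.val + 1 = 0 + 2 * (C.m + 1) := by omega
      rw [hv, h', liftEd_add, e, Nat.zero_add, Nat.mod_self]
  src_injective := by
    intro i j hij
    have hij' : (splitTournament N).src (liftEd C i) = (splitTournament N).src (liftEd C j) := hij
    have hi := i.2
    have hj := j.2
    apply Fin.ext
    rcases Nat.even_or_odd' i.val with ⟨a, ha | ha⟩ <;>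
      rcases Nat.even_or_odd' j.val with ⟨b, hb | hb⟩ <;> rw [ha, hb] at hij'
    · rw [liftEd_even, liftEd_even] at hij'
      have h' : ((C.ed a).1.1, true) = ((C.ed b).1.1, true) := hij'
      have h' : (C.ed a).1.1 = (C.ed b).1.1 := (Prod.mk.inj h').1
      have := src_ed_inj C (by omega) (by omega) h'
      omega
    · rw [liftEd_even, liftEd_odd] at hij'
      exact absurd hij' tf
    · rw [liftEd_even, liftEd_odd] at hij'
      exact absurd hij'.symm tf
    · rw [liftEd_odd, liftEd_odd] at hij'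
      have h' : ((C.ed a).1.2, false) = ((C.ed b).1.2, false) := hij'
      have h' : (C.ed a).1.2 = (C.ed b).1.2 := (Prod.mk.inj h').1
      have := tgt_ed_inj C (by omega) (by omega) h'
      omega

theorem lift_image (Ψ : SpatialEmbedding (splitTournament N))
    (C : DirectedCycle (completeSymmetric N)) : (lift C).image Ψ = C.qimage (unsplit Ψ) := by
  unfold DirectedCycle.image DirectedCycle.qimage
  have e : ∀ i : Fin (C.m + 1), range ((unsplit Ψ).arc (C.edge i)) =
      range (Ψ.arc (liftEd C (2 * i))) ∪ range (Ψ.arc (liftEd C (2 * i + 1))) := fun i => by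
    rw [← C.ed_val, liftEd_even, liftEd_odd]
    exact Path.trans_range _ _
  apply Subset.antisymm
  · rw [iUnion_subset_iff]
    intro j
    have hj : j.val < 2 * C.m + 1 + 1 := j.2
    rcases Nat.even_or_odd' j.val with ⟨a, ha | ha⟩
    · refine Subset.trans ?_ (subset_iUnion _ (⟨a, by omega⟩ : Fin (C.m + 1)))
      rw [e]
      have h : (lift C).edge j = liftEd C (2 * a) := by
        show liftEd C j = _
        rw [ha]
      rw [h]
      exact subset_union_left
    · refine Subset.trans ?_ (subset_iUnion _ (⟨a, by omega⟩ : Fin (C.m + 1)))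
      rw [e]
      have h : (lift C).edge j = liftEd C (2 * a + 1) := by
        show liftEd C j = _
        rw [ha]
      rw [h]
      exact subset_union_right
  · rw [iUnion_subset_iff]
    intro i
    rw [e]
    have hi : i.val < C.m + 1 := i.2
    apply union_subset
    · exact subset_iUnion (fun j => range (Ψ.arc ((lift C).edge j)))
        (⟨2 * i, by show _ < 2 * C.m + 1 + 1; omega⟩ : Fin ((lift C).m + 1))
    · exact subset_iUnion (fun j => range (Ψ.arc ((lift C).edge j)))
        (⟨2 * i + 1, by show _ < 2 * C.m + 1 + 1; omega⟩ : Fin ((lift C).m + 1))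

theorem lift_disjoint {C C' : DirectedCycle (completeSymmetric N)} (h : VertexDisjoint C C') :
    VertexDisjoint (lift C) (lift C') := by
  have hs : ∀ i j, (C.ed i).1.1 ≠ (C'.ed j).1.1 := fun i j => h _ _
  have ht : ∀ i j, (C.ed i).1.2 ≠ (C'.ed j).1.2 := fun i j =>
    (apart_of_disjoint h i j).2.2.2
  intro i j hij
  have hij' : (splitTournament N).src (liftEd C i) = (splitTournament N).src (liftEd C' j) := hij
  rcases Nat.even_or_odd' i.val with ⟨a, ha | ha⟩ <;>
    rcases Nat.even_or_odd' j.val with ⟨b, hb | hb⟩ <;> rw [ha, hb] at hij'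
  · rw [liftEd_even, liftEd_even] at hij'
    have h' : ((C.ed a).1.1, true) = ((C'.ed b).1.1, true) := hij'
    exact hs _ _ (Prod.mk.inj h').1
  · rw [liftEd_even, liftEd_odd] at hij'
    exact absurd hij' tf
  · rw [liftEd_even, liftEd_odd] at hij'
    exact absurd hij'.symm tf
  · rw [liftEd_odd, liftEd_odd] at hij'
    have h' : ((C.ed a).1.2, false) = ((C'.ed b).1.2, false) := hij'
    exact ht _ _ (Prod.mk.inj h').1

/-- The split tournament on `24 (n - 1)` vertices is intrinsically `n`-linked. -/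
theorem main_tournament {n : ℕ} (hn : 2 ≤ n) :
    IntrinsicallyLinked n (splitTournament (12 * (n - 1))) := by
  obtain ⟨k, rfl⟩ : ∃ k, n = k + 1 := ⟨n - 1, by omega⟩
  rw [Nat.add_sub_cancel]
  intro Ψ
  obtain ⟨C, h1, h2⟩ := main_q (by omega) rfl (unsplit Ψ)
  refine ⟨fun i => lift (C i), fun i j hij => lift_disjoint (h1 i j hij), ?_⟩
  have e : (fun i => (lift (C i)).image Ψ) = fun i => (C i).qimage (unsplit Ψ) :=
    funext fun i => lift_image Ψ (C i)
  show Nonsplit fun i => (lift (C i)).image Ψ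
  rw [e]
  exact h2

end Run7.h678.DG
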